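import Pool.Agent.Helper234.Nuc.N

set_option autoImplicit false
open scoped ComplexOrder ENNReal

namespace Pool.Agent.Helper234.Nuc

open Pool.Agent.Helper234.Brown (sumW sumW_map sumW_congr sumW_mono sumW_const sumW_add sumW_sum red ev
  pair_count_le red_reverse_append_iff ev_append ev_cons ev_nil ev_red ev_reverse_star Ball cperm
  cperm_mul_self card_fixed bperm bfun step isRed_nil isRed_step)

universe u v

/-- the finite configuration spaces -/
abbrev CX (n : ℕ) : Type := Fin (n+1) × Ball (2*(n+1)) → Fin 2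

/-- the underlying finite sets -/
abbrev GX (n : ℕ) : Type := CX n × Fin 16

/-- the involutions -/
def sg (n : ℕ) (k : Fin 16) : Equiv.Perm (CX n) := cperm (2*(n+1)) (n+1) k

lemma sg_sg (n : ℕ) (k : Fin 16) (x : CX n) : sg n k (sg n k x) = x := by
  have := cperm_mul_self (2*(n+1)) (n+1) k
  have h2 := congrArg (fun ρ : Equiv.Perm (CX n) => ρ x) this
  exact h2

/-- the involution on the disjoint union -/
def ps (n : ℕ) : Equiv.Perm (GX n) where
  toFun p := (sg n p.2 p.1, p.2)
  invFun p := (sg n p.2 p.1, p.2)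
  left_inv p := by simp [sg_sg]
  right_inv p := by simp [sg_sg]

/-- the cyclic shift -/
def pg (n : ℕ) : Equiv.Perm (GX n) where
  toFun p := (p.1, p.2 + 1)
  invFun p := (p.1, p.2 - 1)
  left_inv p := by simp
  right_inv p := by simp

/-- the origin of the ball -/
def org (n : ℕ) : Ball (2*(n+1)) := ⟨[], isRed_nil, by simp⟩

/-- a point moved by the involution -/
def ptx (n : ℕ) : GX n := (fun p => if p.2 = org n then 1 else 0, 0)

lemma ps_ptx (n : ℕ) : ps n (ptx n) ≠ ptx n := by
  intro h
  have h1 := congrArg Prod.fst h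
  have h2 := congrFun h1 (0, org n)
  have h3 : (ps n (ptx n)).1 (0, org n) = if bfun (2*(n+1)) 0 (org n) = org n then 1 else 0 := rfl
  have h4 : (ptx n).1 (0, org n) = 1 := by simp [ptx]
  rw [h3, h4, if_neg] at h2
  · exact absurd h2 (by decide)
  · intro h5
    have h6 := congrArg Subtype.val h5
    have h7 : (bfun (2*(n+1)) 0 (org n)).1 = [0] := by
      unfold bfun
      rw [dif_pos]
      · rfl
      · show ([0] : List (Fin 16)).length ≤ _
        simp; omega
    rw [h7] at h6
    exact absurd h6 (by simp [org])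

lemma ps_sq (n : ℕ) : ps n ^ 2 = 1 := by
  ext1 p
  rw [pow_two, Equiv.Perm.mul_apply]
  exact (ps n).left_inv p

lemma pg_pow (n m : ℕ) (x : CX n) (k : Fin 16) : (pg n ^ m) (x, k) = (x, k + Fin.ofNat 16 m) := by
  induction m with
  | zero => simp
  | succ m ih =>
    rw [pow_succ', Equiv.Perm.mul_apply, ih]
    show (x, k + Fin.ofNat 16 m + 1) = _
    congr 1
    rw [add_assoc]
    congr 1
    ext
    simp [Fin.val_add]

/-- the concrete system -/
noncomputable def SysX : Sys where
  G := GX
  fin n := inferInstance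
  dec n := inferInstance
  π c n := if c then ps n else pg n
  ord c := if c then 2 else 16
  ord_pos c := by split_ifs <;> norm_num
  pow_ord c n := by
    cases c
    · simp only [Bool.false_eq_true, if_false]
      ext1 p
      obtain ⟨x, k⟩ := p
      rw [pg_pow]
      simp only [Equiv.Perm.one_apply]
      congr 1
      have : Fin.ofNat 16 16 = (0 : Fin 16) := by decide
      rw [this, add_zero]
    · simp only [if_true]
      exact ps_sq n
  pt _ n := ptx n
  free c n h := by
    cases c
    · simp only [Bool.false_eq_true, if_false]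
      intro hfix
      have h0 : pg n ^ 16 = 1 := by
        ext1 p
        obtain ⟨x, k⟩ := p
        rw [pg_pow]
        simp only [Equiv.Perm.one_apply]
        congr 1
        have : Fin.ofNat 16 16 = (0 : Fin 16) := by decide
        rw [this, add_zero]
      have h1 : 0 ≤ h % 16 := Int.emod_nonneg _ (by norm_num)
      have h2 : h % 16 < 16 := Int.emod_lt_of_pos _ (by norm_num)
      set m : ℕ := (h % 16).toNat with hm
      have h3 : (m : ℤ) = h % 16 := Int.toNat_of_nonneg h1
      have h4 : pg n ^ h = pg n ^ m := by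
        have h5 : h = m + 16 * (h / 16) := by rw [h3]; exact (Int.emod_add_mul_ediv h 16).symm
        have h6 : (pg n) ^ ((16 : ℤ) * (h / 16)) = 1 := by
          rw [zpow_mul]
          have : pg n ^ (16 : ℤ) = 1 := by exact_mod_cast h0
          rw [this, one_zpow]
        calc pg n ^ h = pg n ^ ((m : ℤ) + 16 * (h / 16)) := by rw [← h5]
          _ = pg n ^ m := by rw [zpow_add, h6, mul_one, zpow_natCast]
      rw [h4] at hfix
      have h7 := pg_pow n m (ptx n).1 (ptx n).2
      rw [show ((ptx n).1, (ptx n).2) = ptx n from rfl, hfix] at h7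
      have h8 : Fin.ofNat 16 m = 0 := by
        have h9 := congrArg Prod.snd h7
        simp only at h9
        exact left_eq_add.mp h9
      have h10 : m % 16 = 0 := by
        have := congrArg Fin.val h8
        simpa using this
      have h11 : m < 16 := by exact_mod_cast (h3 ▸ h2 : (m : ℤ) < 16)
      have h12 : m = 0 := by omega
      have h13 : h % 16 = 0 := by rw [← h3, h12]; rfl
      exact Int.dvd_of_emod_eq_zero h13
    · simp only [if_true]
      intro hfix
      by_contra hodd
      have hodd' : h % 2 = 1 := by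
        have : ¬ (2 : ℤ) ∣ h := hodd
        omega
      have h5 : h = 1 + 2 * (h / 2) := by omega
      have h6 : (ps n) ^ ((2 : ℤ) * (h / 2)) = 1 := by
        rw [zpow_mul]
        have : ps n ^ (2 : ℤ) = 1 := by exact_mod_cast ps_sq n
        rw [this, one_zpow]
      rw [h5, zpow_add, h6, mul_one, zpow_one] at hfix
      exact ps_ptx n hfix

section both

variable {U : Type u} [NonUnitalCStarAlgebra U]

/-- conjugates of the involution by powers of the shift -/
noncomputable def yy (s g : U) : ℕ → U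
  | 0 => (1/2 : ℂ) • (s + star s)
  | n+1 => star g * yy s g n * g

lemma star_yy (s g : U) (n : ℕ) : star (yy s g n) = yy s g n := by
  induction n with
  | zero =>
    rw [yy, star_smul, star_add, star_star, add_comm]
    norm_num
  | succ n ih => rw [yy, star_mul, star_mul, star_star, ih, mul_assoc]

lemma norm_yy_le (s g : U) (hs : ‖s‖ ≤ 1) (hg : ‖g‖ ≤ 1) (n : ℕ) : ‖yy s g n‖ ≤ 1 := by
  induction n with
  | zero =>
    rw [yy, norm_smul]
    have := norm_add_le s (star s)
    rw [norm_star] at this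
    norm_num
    linarith
  | succ n ih =>
    rw [yy]
    have h1 := norm_mul_le (star g * yy s g n) g
    have h2 := norm_mul_le (star g) (yy s g n)
    rw [norm_star] at h2
    have h3 := norm_nonneg g
    have h4 := norm_nonneg (yy s g n)
    have h5 : ‖g‖ * ‖yy s g n‖ ≤ 1 := by nlinarith
    nlinarith [norm_nonneg (star g * yy s g n)]

/-- the induced permutations -/
def rh (m : ℕ) : ℕ → Equiv.Perm (GX m)
  | 0 => ps m
  | n+1 => (pg m)⁻¹ * rh m n * pg m

/-- the residue -/
def cc : ℕ → Fin 16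
  | 0 => 0
  | n+1 => cc n + 1

lemma cc_val (i : Fin 16) : cc i.val = i := by revert i; decide

lemma rh_apply (m n : ℕ) (x : CX m) (k : Fin 16) : rh m n (x, k) = (sg m (k + cc n) x, k) := by
  induction n generalizing k with
  | zero => simp [rh, cc, ps]
  | succ n ih =>
    rw [rh, Equiv.Perm.mul_apply, Equiv.Perm.mul_apply]
    have h1 : pg m (x, k) = (x, k + 1) := rfl
    rw [h1, ih, Equiv.Perm.inv_eq_iff_eq]
    show _ = (_, k + 1)
    congr 2
    rw [cc]
    abel_nf

lemma step_yy {m : ℕ} {s g : U} (hs : ‖s‖ ≤ 1) (hg : ‖g‖ ≤ 1) {e₁ e₂ : GX m → GX m → U}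
    (hclose : ∀ a b, ‖e₁ a b - e₂ a b‖ ≤ 1/200)
    (h1 : ∀ a b, e₁ a b * s = e₁ a ((ps m)⁻¹ b)) (h1' : ∀ a b, e₁ a b * star s = e₁ a (ps m b))
    (h2 : ∀ a b, e₂ a b * g = e₂ a ((pg m)⁻¹ b)) (h2' : ∀ a b, e₂ a b * star g = e₂ a (pg m b)) (n : ℕ)
    (a b : GX m) : ‖e₂ a b * yy s g n - e₂ a (rh m n b)‖ ≤ 1/100 := by
  induction n generalizing b with
  | zero =>
    have hinv : (ps m)⁻¹ = ps m := by
      rw [inv_eq_iff_mul_eq_one, ← pow_two, ps_sq]
    have e0 : e₁ a b * yy s g 0 = e₁ a (ps m b) := by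
      rw [yy, mul_smul_comm, mul_add, h1, h1', hinv, ← two_smul ℂ, smul_smul]
      norm_num
    have e1 : e₂ a b * yy s g 0 - e₂ a (rh m 0 b) = (e₂ a b - e₁ a b) * yy s g 0 +
        (e₁ a (ps m b) - e₂ a (ps m b)) := by
      rw [sub_mul, e0, rh]; abel
    rw [e1]
    have a1 : ‖(e₂ a b - e₁ a b) * yy s g 0‖ ≤ 1/200 := by
      have := hclose a b
      rw [norm_sub_rev] at this
      have h3 := norm_yy_le s g hs hg 0
      calc _ ≤ ‖e₂ a b - e₁ a b‖ * ‖yy s g 0‖ := norm_mul_le _ _
        _ ≤ 1/200 * 1 := by gcongr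
        _ = 1/200 := by norm_num
    have a2 := hclose a (ps m b)
    have := norm_add_le ((e₂ a b - e₁ a b) * yy s g 0) (e₁ a (ps m b) - e₂ a (ps m b))
    linarith
  | succ n ih =>
    have e1 : e₂ a b * yy s g (n+1) = (e₂ a (pg m b) * yy s g n) * g := by
      rw [yy, ← mul_assoc, ← mul_assoc, h2']
    have e2 : e₂ a (rh m (n+1) b) = e₂ a (rh m n (pg m b)) * g := by
      rw [h2]; rfl
    rw [e1, e2, ← sub_mul]
    have := ih (pg m b)
    calc _ ≤ ‖e₂ a (pg m b) * yy s g n - e₂ a (rh m n (pg m b))‖ * ‖g‖ := norm_mul_le _ _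
      _ ≤ 1/100 * 1 := by gcongr
      _ = 1/100 := by norm_num

theorem not_both (hU : IsNuclear U) (d : ∀ n, SysX.G n → SysX.G n → U)
    (ht : Realizable SysX U d true) (hf : Realizable SysX U d false) : False := by
  classical
  obtain ⟨s, hs, hs2⟩ := ht
  obtain ⟨g, hg, hg2⟩ := hf
  refine core hU (fun i => yy s g i.val) (fun i => star_yy s g _) (fun i => norm_yy_le s g hs hg _) (fun m => ?_)
  have k1 : ∃ e : GX m → GX m → U, IsMUn e ∧ (∀ a b : GX m, ‖e a b - d m a b‖ ≤ 1/400) ∧
    (∀ a b, e a b * s = e a ((ps m)⁻¹ b)) ∧ (∀ a b, e a b * star s = e a (ps m b)) := hs2 m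
  have k2 : ∃ e : GX m → GX m → U, IsMUn e ∧ (∀ a b : GX m, ‖e a b - d m a b‖ ≤ 1/400) ∧
    (∀ a b, e a b * g = e a ((pg m)⁻¹ b)) ∧ (∀ a b, e a b * star g = e a (pg m b)) := hg2 m
  obtain ⟨e₁, he₁, c₁, h1, h1'⟩ := k1
  obtain ⟨e₂, he₂, c₂, h2, h2'⟩ := k2
  have hclose : ∀ a b, ‖e₁ a b - e₂ a b‖ ≤ 1/200 := by
    intro a b
    have h3 := c₁ a b
    have h4 := c₂ a b
    rw [norm_sub_rev] at h4
    calc ‖e₁ a b - e₂ a b‖ = ‖(e₁ a b - d m a b) + (d m a b - e₂ a b)‖ := by congr 1; abel
      _ ≤ ‖e₁ a b - d m a b‖ + ‖d m a b - e₂ a b‖ := norm_add_le _ _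
      _ ≤ 1/200 := by linarith
  refine ⟨CX m, inferInstance, inferInstance, inferInstance, fun x y => e₂ (x, 0) (y, 0), sg m, ?_, ?_, ?_, ?_⟩
  · constructor
    · intro p q r s
      rw [he₂.mul_eq]
      by_cases h : q = r
      · subst h; rw [if_pos rfl, if_pos rfl]
      · rw [if_neg h, if_neg]
        intro h'
        exact h (congrArg Prod.fst h')
    · intro p q
      exact he₂.star_eq _ _
    · intro p
      exact he₂.ne_zero _
  · intro i
    exact cperm_mul_self _ _ _
  · intro w hw hred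
    have h5 := card_fixed (2*(m+1)) (m+1) w (by omega) hred
    refine le_trans ?_ h5
    have h6 : (2:ℕ) ^ m ≤ 2 ^ (m+1) := Nat.pow_le_pow_right (by norm_num) (by omega)
    exact Nat.mul_le_mul_left _ h6
  · intro i a b
    have := step_yy (m := m) hs hg hclose h1 h1' h2 h2' i.val (a, 0) (b, 0)
    rw [rh_apply, cc_val, zero_add] at this
    exact this

end both

end Pool.Agent.Helper234.Nuc
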