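import Pool.Agent.Helper234.Nuc.O

set_option autoImplicit false
open scoped ComplexOrder ENNReal
open Cardinal

namespace Pool.Agent.Helper234.Nuc

universe u v

/-- recursion along finite sequences -/
noncomputable def bseq {α : Type u} (L : ∀ n : ℕ, (Fin n → α) → α) : ℕ → α
  | n => L n (fun i => bseq L i.1)
termination_by n => n
decreasing_by exact i.2

lemma bseq_eq {α : Type u} (L : ∀ n : ℕ, (Fin n → α) → α) (n : ℕ) :
    bseq L n = L n (fun i => bseq L i.1) := by
  rw [bseq]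

lemma mk_seq_le {α : Type u} (κ : Cardinal.{u}) (hκ : ℵ₀ ≤ κ) (h : #α ≤ κ) : #(Σ n : ℕ, (Fin n → α)) ≤ κ := by
  have h1 : #(Σ n : ℕ, (Fin n → α)) ≤ #(List α) :=
    Cardinal.mk_le_of_injective (List.equivSigmaTuple (α := α)).symm.injective
  exact h1.trans ((Cardinal.mk_list_le_max _).trans (max_le hκ h))

section

variable {U : Type u} [NonUnitalCStarAlgebra U]

/-- approximation inside a dense set -/
lemma exists_approx {D : Set U} (hD : Dense D) (x : U) : ∃ y : D, ‖x - y‖ ≤ 1/400 := by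
  obtain ⟨y, hy, h⟩ := Metric.mem_closure_iff.mp (hD x) (1/400) (by norm_num)
  exact ⟨⟨y, hy⟩, by rw [dist_eq_norm] at h; exact h.le⟩

theorem two_pow_le {κ μ lam : Cardinal.{u}} (hμ : ℵ₀ ≤ μ) (hμκ : μ ≤ κ) (hlκ : lam ≤ κ) (hl : lam ≤ μ ^ ℵ₀)
    (hU : IsNuclear U) (hdens : ∃ D : Set U, Dense D ∧ #D ≤ κ)
    (huniv : ∀ (B : Type u) [NonUnitalCStarAlgebra B], IsNuclear B → (∃ D : Set B, Dense D ∧ #D ≤ κ) →
      ∃ f : B →⋆ₙₐ[ℂ] U, Function.Injective f) : (2 : Cardinal.{u}) ^ lam ≤ κ ^ μ := by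
  obtain ⟨D, hD, hDκ⟩ := hdens
  have hκ : ℵ₀ ≤ κ := hμ.trans hμκ
  let α : Type u := μ.out
  have hα : #α = μ := Cardinal.mk_out μ
  have h1 : lam ≤ #(ℕ → α) := by
    have : #(ℕ → α) = μ ^ (ℵ₀ : Cardinal.{u}) := by
      rw [← hα]; simp
    rw [this]; exact hl
  obtain ⟨Λ, hΛ⟩ := Cardinal.le_mk_iff_exists_set.mp h1
  let br : Λ → ℕ → α := Subtype.val
  have hbr : Function.Injective br := Subtype.val_injective
  have hT : #(Σ n : ℕ, (Fin n → α)) ≤ μ := mk_seq_le μ hμ hα.le
  have hf : ∀ t : Λ → Bool, ∃ f : AlgT SysX (seqTree br hbr) t →⋆ₙₐ[ℂ] U, Function.Injective f := by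
    intro t
    exact huniv _ (alg_nuclear _ _ _) (alg_dense_card _ _ _ κ hκ (hT.trans hμκ) (hΛ.le.trans hlκ))
  choose f hf using hf
  have happ : ∀ (t : Λ → Bool) (i : Σ σ : (Σ n : ℕ, (Fin n → α)), SysX.G ((seqTree br hbr).lev σ) ×
      SysX.G ((seqTree br hbr).lev σ)), ∃ y : D, ‖f t (mu SysX (seqTree br hbr) t i.1 i.2.1 i.2.2) - y‖ ≤ 1/400 :=
    fun t i => exists_approx hD _
  choose data hdata using happ
  have hinj : Function.Injective data := by
    intro t t' htt
    by_contra hne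
    obtain ⟨b, hb⟩ := Function.ne_iff.mp hne
    let d : ∀ n, SysX.G n → SysX.G n → U := fun n p q =>
      ((data t ⟨(seqTree br hbr).node b n, p, q⟩ : D) : U)
    have r1 : Realizable SysX U d (t b) := realize br hbr SysX t (f t) (hf t) b d (fun n p q =>
      hdata t ⟨(seqTree br hbr).node b n, p, q⟩)
    have r2 : Realizable SysX U d (t' b) := by
      refine realize br hbr SysX t' (f t') (hf t') b d (fun n p q => ?_)
      have := hdata t' ⟨(seqTree br hbr).node b n, p, q⟩
      rw [← htt] at this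
      exact this
    cases h1 : t b <;> cases h2 : t' b
    · exact hb (h1.trans h2.symm)
    · rw [h1] at r1; rw [h2] at r2
      exact not_both hU d r2 r1
    · rw [h1] at r1; rw [h2] at r2
      exact not_both hU d r1 r2
    · exact hb (h1.trans h2.symm)
  have h2 := Cardinal.mk_le_of_injective hinj
  have h3 : #(Λ → Bool) = 2 ^ lam := by
    rw [← hΛ]
    simp
  rw [h3] at h2
  refine h2.trans ?_
  rw [← Cardinal.power_def]
  have hκ0 : κ ≠ 0 := fun h => by
    rw [h] at hκ
    exact absurd (Cardinal.aleph0_pos.trans_le hκ) (lt_irrefl _)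
  exact (Cardinal.power_le_power_right hDκ).trans
    (Cardinal.power_le_power_left hκ0 (mk_sigma_le SysX (seqTree br hbr) μ hμ hT))

theorem pow_ne {κ : Cardinal.{u}} (hκ : ℵ₀ ≤ κ) (hpow : κ ^ ℵ₀ = κ)
    (hU : IsNuclear U) (hdens : ∃ D : Set U, Dense D ∧ #D ≤ κ)
    (huniv : ∀ (B : Type u) [NonUnitalCStarAlgebra B], IsNuclear B → (∃ D : Set B, Dense D ∧ #D ≤ κ) →
      ∃ f : B →⋆ₙₐ[ℂ] U, Function.Injective f) : False := by
  classical
  obtain ⟨D, hD, hDκ⟩ := hdens
  let α : Type u := ∀ n : ℕ, SysX.G n → SysX.G n → D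
  have hαequiv : #α ≤ #((Σ n : ULift.{u} ℕ, SysX.G n.down × SysX.G n.down) → D) := by
    refine Cardinal.mk_le_of_injective (f := fun (a : α) i => a i.1.down i.2.1 i.2.2) ?_
    intro a a' h
    funext n p q
    exact congrFun h ⟨⟨n⟩, p, q⟩
  have hα : #α ≤ κ := by
    refine hαequiv.trans ?_
    rw [← Cardinal.power_def, ← hpow]
    have hκ0 : κ ≠ 0 := fun h => by
      rw [h] at hκ
      exact absurd (Cardinal.aleph0_pos.trans_le hκ) (lt_irrefl _)
    refine (Cardinal.power_le_power_right hDκ).trans (Cardinal.power_le_power_left hκ0 ?_)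
    exact Cardinal.mk_le_aleph0
  let Λ : Type u := ℕ → α
  have hΛ : #Λ ≤ κ := by
    have : #(ℕ → α) = #α ^ (ℵ₀ : Cardinal.{u}) := by simp
    rw [show #Λ = #(ℕ → α) from rfl, this, ← hpow]
    exact Cardinal.power_le_power_right hα
  let br : Λ → ℕ → α := id
  have hbr : Function.Injective br := Function.injective_id
  have hT : #(Σ n : ℕ, (Fin n → α)) ≤ κ := mk_seq_le κ hκ hα
  let dd : Λ → ∀ n, SysX.G n → SysX.G n → U := fun b n p q => ((b n n p q : D) : U)
  let t : Λ → Bool := fun b => if Realizable SysX U (dd b) true then false else true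
  obtain ⟨f, hf⟩ := huniv (AlgT SysX (seqTree br hbr) t) (alg_nuclear _ _ _)
    (alg_dense_card _ _ _ κ hκ hT hΛ)
  have happ : ∀ (σ : (Σ n : ℕ, (Fin n → α))) (p q : SysX.G ((seqTree br hbr).lev σ)),
      ∃ y : D, ‖f (mu SysX (seqTree br hbr) t σ p q) - y‖ ≤ 1/400 := fun σ p q => exists_approx hD _
  choose ap hap using happ
  obtain ⟨y0, -⟩ := exists_approx hD 0
  let def0 : α := fun _ _ _ => y0
  let ext : ∀ (m n : ℕ), (Fin n → α) → (Fin m → α) := fun m n s i => if h : i.1 < n then s ⟨i.1, h⟩ else def0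
  let L : ∀ n : ℕ, (Fin n → α) → α := fun n s m p q => ap ⟨m, ext m n s⟩ p q
  let b : Λ := bseq L
  have hb : ∀ n p q, b n n p q = ap ((seqTree br hbr).node b n) p q := by
    intro n p q
    have h1 : b n = L n (fun i => b i.1) := bseq_eq L n
    rw [h1]
    have h2 : ext n n (fun i => b i.1) = fun i => b i.1 := by
      funext i
      show (if h : i.1 < n then b i.1 else def0) = b i.1
      rw [dif_pos i.2]
    show ap ⟨n, ext n n (fun i => b i.1)⟩ p q = _
    rw [h2]
    rfl
  have hr : Realizable SysX U (dd b) (t b) := by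
    refine realize br hbr SysX t f hf b (dd b) (fun n p q => ?_)
    have := hap ((seqTree br hbr).node b n) p q
    rw [← hb n p q] at this
    exact this
  by_cases h : Realizable SysX U (dd b) true
  · have h1 : t b = false := if_pos h
    rw [h1] at hr
    exact not_both hU _ h hr
  · have h1 : t b = true := if_neg h
    rw [h1] at hr
    exact h hr

end

end Pool.Agent.Helper234.Nuc
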