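import Pool.Agent.Helper234.Nuc.Defs

set_option autoImplicit false
open scoped ComplexOrder
open scoped Matrix.Norms.L2Operator

namespace Pool.Agent.Helper234.Nuc

universe u v w

section matrix

variable {ι : Type v} [Fintype ι] [DecidableEq ι]

open scoped MatrixOrder in
lemma posSemidef_eq {M : Matrix ι ι ℂ} (h : M.PosSemidef) : ∃ B : Matrix ι ι ℂ, M = star B * B :=
  CStarAlgebra.nonneg_iff_eq_star_mul_self.mp h.nonneg

open scoped MatrixOrder in
lemma norm_le_one_iff_posSemidef {M : Matrix ι ι ℂ} : ‖M‖ ≤ 1 ↔ (1 - star M * M).PosSemidef := by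
  rw [← Matrix.le_iff, ← CStarAlgebra.norm_le_one_iff_of_nonneg _ (star_mul_self_nonneg M),
    CStarRing.norm_star_mul_self]
  constructor
  · intro h; nlinarith [norm_nonneg M]
  · intro h
    by_contra h2
    push Not at h2
    nlinarith [norm_nonneg M]

end matrix

section order

variable {A : Type u} [NonUnitalCStarAlgebra A]

/-- sums of squares are squares -/
lemma exists_star_mul_self_of_sum {ι : Type*} (s : Finset ι) (f : ι → A) :
    ∃ r : A, ∑ i ∈ s, star (f i) * f i = star r * r := by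
  let _ := CStarAlgebra.spectralOrder A
  have := CStarAlgebra.spectralOrderedRing A
  exact CStarAlgebra.nonneg_iff_eq_star_mul_self.mp
    (Finset.sum_nonneg fun i _ => star_mul_self_nonneg (f i))

end order

section kraus

variable {A : Type u} [NonUnitalCStarAlgebra A] {ι : Type v} {Q : Type w} [Fintype ι] [Fintype Q]

/-- the map `M ↦ ∑ K* M K` -/
def kr (K : Q → ι → A) : Matrix ι ι ℂ →ₗ[ℂ] A where
  toFun M := ∑ q, ∑ u, ∑ v, M u v • (star (K q u) * K q v)
  map_add' M N := by
    simp only [Matrix.add_apply, add_smul, Finset.sum_add_distrib]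
  map_smul' c M := by
    simp only [Matrix.smul_apply, smul_eq_mul, mul_smul, Finset.smul_sum, RingHom.id_apply]

lemma kr_apply (K : Q → ι → A) (M : Matrix ι ι ℂ) :
    kr K M = ∑ q, ∑ u, ∑ v, M u v • (star (K q u) * K q v) := rfl

lemma kr_star_mul (K : Q → ι → A) (X Y : Matrix ι ι ℂ) :
    kr K (star X * Y) = ∑ q, ∑ w, star (∑ u, X w u • K q u) * (∑ v, Y w v • K q v) := by
  rw [kr_apply]
  refine Finset.sum_congr rfl fun q _ => ?_
  have h1 : ∀ w, star (∑ u, X w u • K q u) * (∑ v, Y w v • K q v) =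
      ∑ u, ∑ v, (star (X w u) * Y w v) • (star (K q u) * K q v) := by
    intro w
    rw [star_sum, Finset.sum_mul]
    refine Finset.sum_congr rfl fun u _ => ?_
    rw [Finset.mul_sum]
    refine Finset.sum_congr rfl fun v _ => ?_
    rw [star_smul, smul_mul_smul_comm]
  simp only [h1]
  rw [Finset.sum_comm' (t' := Finset.univ) (s' := fun _ => Finset.univ) (by simp)]
  rw [Finset.sum_comm]
  have h2 : ∀ u v, (star X * Y) u v • (star (K q u) * K q v) =
      ∑ w, (star (X w u) * Y w v) • (star (K q u) * K q v) := by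
    intro u v
    rw [Matrix.mul_apply, Finset.sum_smul]
    rfl
  simp only [h2]
  rw [Finset.sum_comm (s := Finset.univ) (t := Finset.univ) (f := fun w u =>
    ∑ v, (star (X w u) * Y w v) • (star (K q u) * K q v))]
  refine Finset.sum_congr rfl fun u _ => ?_
  exact Finset.sum_comm

lemma kr_cp (K : Q → ι → A) (m : ℕ) (Y : Fin m → Matrix ι ι ℂ) (y : Fin m → A) :
    ∃ s : A, ∑ i, ∑ j, star (y i) * kr K (star (Y i) * Y j) * y j = star s * s := by
  have h : ∑ i, ∑ j, star (y i) * kr K (star (Y i) * Y j) * y j =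
      ∑ p ∈ (Finset.univ : Finset (Q × ι)), star (∑ i, (∑ u, Y i p.2 u • K p.1 u) * y i) *
        (∑ i, (∑ u, Y i p.2 u • K p.1 u) * y i) := by
    have h1 : ∀ i j, star (y i) * kr K (star (Y i) * Y j) * y j =
        ∑ p : Q × ι, star ((∑ u, Y i p.2 u • K p.1 u) * y i) * ((∑ u, Y j p.2 u • K p.1 u) * y j) := by
      intro i j
      rw [kr_star_mul, Fintype.sum_prod_type, Finset.mul_sum, Finset.sum_mul]
      refine Finset.sum_congr rfl fun q _ => ?_
      rw [Finset.mul_sum, Finset.sum_mul]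
      refine Finset.sum_congr rfl fun w _ => ?_
      rw [star_mul]
      simp only [mul_assoc]
    simp only [h1]
    have h2 : ∀ p : Q × ι, star (∑ i, (∑ u, Y i p.2 u • K p.1 u) * y i) *
        (∑ i, (∑ u, Y i p.2 u • K p.1 u) * y i) = ∑ i, ∑ j,
        star ((∑ u, Y i p.2 u • K p.1 u) * y i) * ((∑ u, Y j p.2 u • K p.1 u) * y j) := by
      intro p
      rw [star_sum, Finset.sum_mul]
      refine Finset.sum_congr rfl fun i _ => ?_
      rw [Finset.mul_sum]
    simp only [h2]
    rw [Finset.sum_comm (s := (Finset.univ : Finset (Q × ι)))]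
    refine Finset.sum_congr rfl fun i _ => ?_
    exact Finset.sum_comm
  rw [h]
  exact exists_star_mul_self_of_sum _ _

variable [DecidableEq ι]

lemma kr_contr (K : Q → ι → A) (hK : ‖kr K 1‖ ≤ 1) (M : Matrix ι ι ℂ)
    (hM : (1 - star M * M).PosSemidef) : ‖kr K M‖ ≤ 1 := by
  let _ := CStarAlgebra.spectralOrder A
  have := CStarAlgebra.spectralOrderedRing A
  obtain ⟨B, hB⟩ := posSemidef_eq hM
  have hpos : ∀ X : Matrix ι ι ℂ, 0 ≤ kr K (star X * X) := by
    intro X
    rw [kr_star_mul]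
    exact Finset.sum_nonneg fun q _ => Finset.sum_nonneg fun w _ => star_mul_self_nonneg _
  have h1 : kr K (star M * M) ≤ kr K 1 := by
    have h2 := hpos B
    rw [← hB, map_sub, sub_nonneg] at h2
    exact h2
  have h2 : ‖kr K (star M * M)‖ ≤ 1 :=
    (CStarAlgebra.norm_le_norm_of_nonneg_of_le (hpos M) h1).trans hK
  let X : WithCStarModule A (Q × ι → A) := (WithCStarModule.equiv A (Q × ι → A)).symm
    (fun p => star (K p.1 p.2))
  let Y : WithCStarModule A (Q × ι → A) := (WithCStarModule.equiv A (Q × ι → A)).symm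
    (fun p => star (∑ v, M p.2 v • K p.1 v))
  have hX : ‖X‖ ≤ 1 := by
    have e : ‖X‖ ^ 2 = ‖kr K 1‖ := by
      rw [WithCStarModule.pi_norm_sq]
      congr 1
      have : kr K 1 = kr K (star 1 * 1) := by simp
      rw [this, kr_star_mul, Fintype.sum_prod_type]
      refine Finset.sum_congr rfl fun q _ => Finset.sum_congr rfl fun w _ => ?_
      have e2 : (∑ u, (1 : Matrix ι ι ℂ) w u • K q u) = K q w := by
        simp [Matrix.one_apply]
      rw [e2]
      show star (K q w) * star (star (K q w)) = _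
      rw [star_star]
    nlinarith [norm_nonneg X]
  have hY : ‖Y‖ ≤ 1 := by
    have e : ‖Y‖ ^ 2 = ‖kr K (star M * M)‖ := by
      rw [WithCStarModule.pi_norm_sq]
      congr 1
      rw [kr_star_mul, Fintype.sum_prod_type]
      refine Finset.sum_congr rfl fun q _ => Finset.sum_congr rfl fun w _ => ?_
      show star (∑ v, M w v • K q v) * star (star (∑ v, M w v • K q v)) = _
      rw [star_star]
    nlinarith [norm_nonneg Y]
  have h3 : kr K M = inner A Y X := by
    rw [WithCStarModule.pi_inner, Fintype.sum_prod_type]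
    have : kr K M = kr K (star 1 * M) := by simp
    rw [this, kr_star_mul]
    refine Finset.sum_congr rfl fun q _ => Finset.sum_congr rfl fun w _ => ?_
    have e2 : (∑ u, (1 : Matrix ι ι ℂ) w u • K q u) = K q w := by
      simp [Matrix.one_apply]
    rw [e2]
    show _ = star (K q w) * star (star (∑ v, M w v • K q v))
    rw [star_star]
  rw [h3]
  have h4 := CStarModule.norm_inner_le (A := A) (WithCStarModule A (Q × ι → A)) (x := Y) (y := X)
  refine h4.trans ?_
  calc ‖Y‖ * ‖X‖ ≤ 1 * 1 := by gcongr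
    _ = 1 := by norm_num

end kraus

section hom

variable {A : Type u} [NonUnitalCStarAlgebra A] {ι : Type v} [Fintype ι] [DecidableEq ι]

omit [DecidableEq ι] in
lemma hom_cp (φ : A →⋆ₙₐ[ℂ] Matrix ι ι ℂ) (m : ℕ) (x : Fin m → A) :
    (Matrix.of (fun p q : Fin m × ι => φ (star (x p.1) * x q.1) p.2 q.2)).PosSemidef := by
  have : (Matrix.of (fun p q : Fin m × ι => φ (star (x p.1) * x q.1) p.2 q.2)) =
      (Matrix.of (fun (w : ι) (p : Fin m × ι) => φ (x p.1) w p.2)).conjTranspose *
      (Matrix.of (fun (w : ι) (p : Fin m × ι) => φ (x p.1) w p.2)) := by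
    ext p q
    simp only [Matrix.of_apply, Matrix.mul_apply, Matrix.conjTranspose_apply, map_mul, map_star]
    rfl
  rw [this]
  exact Matrix.posSemidef_conjTranspose_mul_self _

lemma hom_contr (φ : A →⋆ₙₐ[ℂ] Matrix ι ι ℂ) (a : A) (ha : ‖a‖ ≤ 1) :
    (1 - star (φ a) * φ a).PosSemidef := by
  rw [← norm_le_one_iff_posSemidef]
  exact (NonUnitalStarAlgHom.norm_apply_le φ a).trans ha

end hom

/-- A criterion for nuclearity. -/
lemma isNuclear_of_kraus {A : Type u} [NonUnitalCStarAlgebra A] (G : Set A)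
    (hdense : Dense (Submodule.span ℂ G : Set A))
    (h : ∀ F : Finset A, (F : Set A) ⊆ G → ∃ (ι Q : Type v) (_ : Fintype ι) (_ : DecidableEq ι) (_ : Fintype Q)
      (φ : A →⋆ₙₐ[ℂ] Matrix ι ι ℂ) (K : Q → ι → A), ‖kr K 1‖ ≤ 1 ∧ ∀ g ∈ F, kr K (φ g) = g) :
    IsNuclear A := by
  classical
  intro F ε hε
  -- approximants in the span
  have h1 : ∀ a : A, ∃ b ∈ (Submodule.span ℂ G : Set A), ‖a - b‖ < ε / 3 := by
    intro a
    obtain ⟨b, hb, hb2⟩ := Metric.mem_closure_iff.mp (hdense a) (ε / 3) (by positivity)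
    exact ⟨b, hb, by rwa [dist_eq_norm] at hb2⟩
  choose b hb hb2 using h1
  have h2 : ∀ a : A, ∃ T : Finset A, (T : Set A) ⊆ G ∧ b a ∈ Submodule.span ℂ (T : Set A) := by
    intro a
    exact Submodule.mem_span_finite_of_mem_span (hb a)
  choose T hT hT2 using h2
  obtain ⟨ι, Q, i1, i2, i3, φ, K, hK, hfix⟩ := h (F.biUnion T) (by
    intro x hx
    rw [Finset.coe_biUnion] at hx
    simp only [Set.mem_iUnion] at hx
    obtain ⟨a, _, hx⟩ := hx
    exact hT a hx)
  have hfix2 : ∀ a ∈ F, kr K (φ (b a)) = b a := by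
    intro a ha
    have : b a ∈ Submodule.span ℂ ((F.biUnion T : Finset A) : Set A) := by
      refine Submodule.span_mono ?_ (hT2 a)
      intro x hx
      rw [Finset.mem_coe, Finset.mem_biUnion]
      exact ⟨a, ha, hx⟩
    refine Submodule.span_induction (p := fun x _ => kr K (φ x) = x) ?_ ?_ ?_ ?_ this
    · intro x hx; exact hfix x hx
    · simp
    · intro x y _ _ hx hy; rw [map_add, map_add, hx, hy]
    · intro c x _ hx; rw [map_smul, map_smul, hx]
  -- reindexing
  let e : ι ≃ Fin (Fintype.card ι) := Fintype.equivFin ι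
  let n := Fintype.card ι
  let Re : Matrix (Fin n) (Fin n) ℂ →ₗ[ℂ] Matrix ι ι ℂ := (Matrix.reindexLinearEquiv ℂ ℂ e.symm e.symm).toLinearMap
  let Φ : A →ₗ[ℂ] Matrix (Fin n) (Fin n) ℂ :=
    (Matrix.reindexLinearEquiv ℂ ℂ e e).toLinearMap ∘ₗ (φ : A →ₗ[ℂ] Matrix ι ι ℂ)
  have hΦ : ∀ a p q, Φ a p q = φ a (e.symm p) (e.symm q) := fun _ _ _ => rfl
  have hRe : ∀ M p q, Re M p q = M (e p) (e q) := fun _ _ _ => rfl
  have hRemul : ∀ M N, Re (star M * N) = star (Re M) * Re N := by
    intro M N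
    ext p q
    rw [hRe, Matrix.mul_apply, Matrix.mul_apply]
    refine (Fintype.sum_equiv e _ _ (fun w => ?_)).symm
    rfl
  have hReone : Re 1 = 1 := by
    ext p q
    rw [hRe, Matrix.one_apply, Matrix.one_apply]
    simp
  have hRePSD : ∀ M, M.PosSemidef → (Re M).PosSemidef := by
    intro M hM
    exact hM.submatrix e
  refine ⟨n, Φ, (kr K) ∘ₗ Re, ?_, ?_, ?_, ?_, ?_⟩
  · intro m x
    have := (hom_cp φ m x).submatrix (fun p : Fin m × Fin n => (p.1, e.symm p.2))
    exact this
  · intro m Y y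
    obtain ⟨s, hs⟩ := kr_cp K m (fun i => Re (Y i)) y
    refine ⟨s, ?_⟩
    rw [← hs]
    refine Finset.sum_congr rfl fun i _ => Finset.sum_congr rfl fun j _ => ?_
    rw [LinearMap.comp_apply, hRemul]
  · intro a ha
    have h3 := (hom_contr φ a ha).submatrix e.symm
    have : (1 - star (φ a) * φ a).submatrix e.symm e.symm = 1 - star (Φ a) * Φ a := by
      ext p q
      rw [Matrix.submatrix_apply, Matrix.sub_apply, Matrix.sub_apply, Matrix.mul_apply, Matrix.mul_apply,
        Matrix.one_apply, Matrix.one_apply]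
      congr 1
      · simp
      · refine (Fintype.sum_equiv e _ _ (fun w => ?_))
        rw [Matrix.star_apply, Matrix.star_apply, hΦ, hΦ, e.symm_apply_apply]
    rw [← this]; exact h3
  · intro M hM
    rw [LinearMap.comp_apply]
    apply kr_contr K hK
    have := hRePSD _ hM
    rwa [map_sub, hReone, hRemul] at this
  · intro a ha
    have e1 : ((kr K) ∘ₗ Re) (Φ a) = kr K (φ a) := by
      rw [LinearMap.comp_apply]
      congr 1
      ext p q
      rw [hRe, hΦ, e.symm_apply_apply, e.symm_apply_apply]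
    rw [e1]
    have e2 : kr K (φ a) - a = kr K (φ (a - b a)) - (a - b a) := by
      rw [map_sub, map_sub, hfix2 a ha]; abel
    rw [e2]
    have e3 : ∀ x : A, ‖kr K (φ x)‖ ≤ ‖x‖ := by
      intro x
      by_cases hx : x = 0
      · simp [hx]
      have hx' : 0 < ‖x‖ := norm_pos_iff.mpr hx
      have h4 : ‖kr K (φ (((‖x‖ : ℂ)⁻¹) • x))‖ ≤ 1 := by
        apply kr_contr K hK
        apply hom_contr
        rw [norm_smul, norm_inv, Complex.norm_real, norm_norm, inv_mul_cancel₀ hx'.ne']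
      rw [map_smul, map_smul, norm_smul, norm_inv, Complex.norm_real, norm_norm] at h4
      rwa [inv_mul_le_iff₀ hx', mul_one] at h4
    calc ‖kr K (φ (a - b a)) - (a - b a)‖ ≤ ‖kr K (φ (a - b a))‖ + ‖a - b a‖ := norm_sub_le _ _
      _ ≤ ‖a - b a‖ + ‖a - b a‖ := by gcongr; exact e3 _
      _ < ε := by linarith [hb2 a]

section blocks

variable {A : Type u} [NonUnitalCStarAlgebra A] {J : Type v} [Fintype J] [DecidableEq J]
  (Gj : J → Type) [∀ j, Fintype (Gj j)] [∀ j, DecidableEq (Gj j)]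

/-- block diagonal homomorphism -/
def blockHom (φ : ∀ j, A →⋆ₙₐ[ℂ] Matrix (Gj j) (Gj j) ℂ) :
    A →⋆ₙₐ[ℂ] Matrix (Σ j, Gj j) (Σ j, Gj j) ℂ where
  toFun a := Matrix.blockDiagonal' (fun j => φ j a)
  map_smul' c a := by
    simp only [map_smul]
    exact Matrix.blockDiagonal'_smul c _
  map_zero' := by
    simp only [map_zero]
    exact Matrix.blockDiagonal'_zero
  map_add' a b := by
    simp only [map_add]
    exact Matrix.blockDiagonal'_add _ _
  map_mul' a b := by
    simp only [map_mul]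
    exact Matrix.blockDiagonal'_mul _ _
  map_star' a := by
    simp only [map_star]
    exact (Matrix.blockDiagonal'_conjTranspose _).symm

omit [∀ j, DecidableEq (Gj j)] in
lemma blockHom_apply_same (φ : ∀ j, A →⋆ₙₐ[ℂ] Matrix (Gj j) (Gj j) ℂ) (a : A) (j : J) (u v : Gj j) :
    blockHom Gj φ a ⟨j, u⟩ ⟨j, v⟩ = φ j a u v := by
  show Matrix.blockDiagonal' (fun j => φ j a) ⟨j, u⟩ ⟨j, v⟩ = _
  rw [Matrix.blockDiagonal'_apply_eq]

/-- the columns -/
def blockK (κ : ∀ j, Gj j → A) (q : J) (p : Σ j, Gj j) : A := if p.1 = q then κ p.1 p.2 else 0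

lemma kr_blockK (κ : ∀ j, Gj j → A) (M : Matrix (Σ j, Gj j) (Σ j, Gj j) ℂ) :
    kr (blockK Gj κ) M = ∑ j, ∑ u, ∑ v, M ⟨j, u⟩ ⟨j, v⟩ • (star (κ j u) * κ j v) := by
  rw [kr_apply]
  refine Finset.sum_congr rfl fun j _ => ?_
  rw [Fintype.sum_sigma, Finset.sum_eq_single j]
  · refine Finset.sum_congr rfl fun u _ => ?_
    rw [Fintype.sum_sigma, Finset.sum_eq_single j]
    · refine Finset.sum_congr rfl fun v _ => ?_
      simp [blockK]
    · intro j' _ hj'
      refine Finset.sum_eq_zero fun v _ => ?_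
      simp [blockK, hj']
    · simp
  · intro j' _ hj'
    refine Finset.sum_eq_zero fun u _ => Finset.sum_eq_zero fun v _ => ?_
    simp [blockK, hj']
  · simp

end blocks

/-- A criterion for nuclearity in terms of finitely many matrix blocks. -/
lemma isNuclear_of_blocks {A : Type u} [NonUnitalCStarAlgebra A] (G : Set A)
    (hdense : Dense (Submodule.span ℂ G : Set A))
    (h : ∀ F : Finset A, (F : Set A) ⊆ G → ∃ (J : Type v) (_ : Fintype J) (_ : DecidableEq J)
      (Gj : J → Type) (_ : ∀ j, Fintype (Gj j)) (_ : ∀ j, DecidableEq (Gj j))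
      (φ : ∀ j, A →⋆ₙₐ[ℂ] Matrix (Gj j) (Gj j) ℂ) (κ : ∀ j, Gj j → A),
      ‖∑ j, ∑ u, star (κ j u) * κ j u‖ ≤ 1 ∧
      ∀ g ∈ F, ∑ j, ∑ u, ∑ v, φ j g u v • (star (κ j u) * κ j v) = g) :
    IsNuclear A := by
  refine isNuclear_of_kraus.{u, v} G hdense (fun F hF => ?_)
  obtain ⟨J, i1, i2, Gj, i3, i4, φ, κ, h1, h2⟩ := h F hF
  refine ⟨Σ j, Gj j, J, inferInstance, inferInstance, inferInstance, blockHom Gj φ, blockK Gj κ, ?_, ?_⟩
  · rw [kr_blockK]
    have : ∑ j, ∑ u, ∑ v, (1 : Matrix (Σ j, Gj j) (Σ j, Gj j) ℂ) ⟨j, u⟩ ⟨j, v⟩ • (star (κ j u) * κ j v) =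
        ∑ j, ∑ u, star (κ j u) * κ j u := by
      refine Finset.sum_congr rfl fun j _ => Finset.sum_congr rfl fun u _ => ?_
      rw [Finset.sum_eq_single u]
      · simp
      · intro v _ hv
        rw [Matrix.one_apply_ne, zero_smul]
        intro h
        apply hv
        simpa using h.symm
      · simp
    rw [this]; exact h1
  · intro g hg
    rw [kr_blockK]
    conv_rhs => rw [← h2 g hg]
    refine Finset.sum_congr rfl fun j _ => Finset.sum_congr rfl fun u _ => Finset.sum_congr rfl fun v _ => ?_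
    rw [blockHom_apply_same]

end Pool.Agent.Helper234.Nuc
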