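import Pool.Agent.Helper234.Nuc.A
import Pool.Agent.Helper234.BrownI

set_option autoImplicit false
open scoped ComplexOrder

namespace Pool.Agent.Helper234.Nuc

open Pool.Agent.Helper234.Brown (sumW sumW_map sumW_congr sumW_mono sumW_const sumW_add sumW_sum red ev
  pair_count_le red_reverse_append_iff ev_append ev_cons ev_nil ev_red)

universe u

/-- a positive linear functional on a star algebra -/
structure PosF (R : Type u) [NonUnitalRing R] [StarRing R] [Module ℂ R] where
  f : R →ₗ[ℂ] ℂ
  pos : ∀ x, 0 ≤ f (star x * x)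

namespace PosF

variable {R : Type u} [NonUnitalRing R] [StarRing R] [Module ℂ R] [IsScalarTower ℂ R R]
  [SMulCommClass ℂ R R] [StarModule ℂ R] (t : PosF R)

/-- the 2-norm -/
noncomputable def n2 (x : R) : ℝ := Real.sqrt (t.f (star x * x)).re

omit [IsScalarTower ℂ R R] [SMulCommClass ℂ R R] [StarModule ℂ R] in
lemma self_re_nonneg (x : R) : 0 ≤ (t.f (star x * x)).re := by
  have := t.pos x
  rw [Complex.le_def] at this
  exact this.1

omit [IsScalarTower ℂ R R] [SMulCommClass ℂ R R] [StarModule ℂ R] in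
lemma self_im (x : R) : (t.f (star x * x)).im = 0 := by
  have := t.pos x
  rw [Complex.le_def] at this
  exact this.2.symm

omit [IsScalarTower ℂ R R] [SMulCommClass ℂ R R] [StarModule ℂ R] in
lemma n2_sq (x : R) : t.n2 x ^ 2 = (t.f (star x * x)).re := by
  rw [n2, Real.sq_sqrt (t.self_re_nonneg x)]

omit [IsScalarTower ℂ R R] [SMulCommClass ℂ R R] [StarModule ℂ R] in
lemma self_eq (x : R) : t.f (star x * x) = ((t.n2 x ^ 2 : ℝ) : ℂ) := by
  apply Complex.ext
  · rw [n2, Real.sq_sqrt (t.self_re_nonneg x), Complex.ofReal_re]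
  · rw [self_im, Complex.ofReal_im]

omit [IsScalarTower ℂ R R] [SMulCommClass ℂ R R] [StarModule ℂ R] in
lemma n2_nonneg (x : R) : 0 ≤ t.n2 x := Real.sqrt_nonneg _

lemma herm (x y : R) : t.f (star y * x) = (starRingEnd ℂ) (t.f (star x * y)) := by
  have h1 := t.self_im (x + y)
  have h2 := t.self_im (x + (Complex.I) • y)
  have hx := t.self_im x
  have hy := t.self_im y
  simp only [star_add, add_mul, mul_add, star_smul, map_add, smul_mul_assoc,
    mul_smul_comm, map_smul, smul_eq_mul, Complex.add_im,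
    Complex.star_def, Complex.conj_I] at h1 h2
  rw [hx] at h1 h2
  rw [hy] at h1
  simp only [neg_mul, Complex.neg_im, Complex.mul_im, Complex.neg_re, Complex.mul_re, Complex.I_re,
    Complex.I_im, zero_mul, one_mul, zero_add, hy] at h2
  apply Complex.ext
  · simp only [Complex.conj_re]
    linarith
  · simp only [Complex.conj_im]; linarith

/-- the pre-inner product core -/
noncomputable abbrev core : PreInnerProductSpace.Core ℂ R where
  inner x y := t.f (star x * y)
  conj_inner_symm x y := by
    rw [← t.herm]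
  re_inner_nonneg x := by simpa using t.self_re_nonneg x
  add_left x y z := by simp [add_mul]
  smul_left x y r := by simp [smul_mul_assoc]

lemma norm_le (x y : R) : ‖t.f (star x * y)‖ ≤ t.n2 x * t.n2 y := by
  have := @InnerProductSpace.Core.norm_inner_le_norm ℂ R _ _ _ t.core x y
  exact this

lemma n2_add_le (x y : R) : t.n2 (x + y) ≤ t.n2 x + t.n2 y := by
  have hx := t.n2_nonneg x
  have hy := t.n2_nonneg y
  apply le_of_sq_le_sq _ (by positivity)
  rw [n2_sq]
  have h1 := t.norm_le x y
  have h2 : t.f (star (x + y) * (x + y)) = t.f (star x * x) + t.f (star x * y) +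
      ((starRingEnd ℂ) (t.f (star x * y)) + t.f (star y * y)) := by
    rw [← t.herm]
    simp only [star_add, add_mul, mul_add, map_add]
    ring
  rw [h2]
  simp only [Complex.add_re, Complex.conj_re]
  rw [← n2_sq, ← n2_sq]
  have h3 : (t.f (star x * y)).re ≤ ‖t.f (star x * y)‖ := Complex.re_le_norm _
  nlinarith

omit [IsScalarTower ℂ R R] [SMulCommClass ℂ R R] [StarModule ℂ R] in
@[simp] lemma n2_zero : t.n2 0 = 0 := by simp [n2]

lemma n2_sum_le {ι : Type*} (s : Finset ι) (g : ι → R) : t.n2 (∑ i ∈ s, g i) ≤ ∑ i ∈ s, t.n2 (g i) := by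
  classical
  induction s using Finset.induction_on with
  | empty => simp
  | insert a s ha ih =>
    rw [Finset.sum_insert ha, Finset.sum_insert ha]
    exact (t.n2_add_le _ _).trans (by linarith)

lemma norm_sumW_le (k : ℕ) (F : List (Fin 16) → ℂ) : ‖sumW k F‖ ≤ sumW k (fun w => ‖F w‖) := by
  induction k generalizing F with
  | zero => exact le_rfl
  | succ k ih =>
    simp only [sumW]
    exact (norm_sum_le _ _).trans (Finset.sum_le_sum fun i _ => ih _)

omit [IsScalarTower ℂ R R] [SMulCommClass ℂ R R] [StarModule ℂ R] in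
lemma n2_sumW_le (n : ℕ) (f : List (Fin 16) → R) (g : List (Fin 16) → List (Fin 16) → ℝ)
    (h : ∀ v w, v.length = n → w.length = n → ‖t.f (star (f v) * f w)‖ ≤ g v w) :
    t.n2 (sumW n f) ^ 2 ≤ sumW n (fun v => sumW n (fun w => g v w)) := by
  have e1 : t.f (star (sumW n f) * sumW n f) =
      sumW n (fun v => sumW n (fun w => t.f (star (f v) * f w))) := by
    have a1 := sumW_map (starAddEquiv (R := R)).toAddMonoidHom n f
    have a1' : star (sumW n f) = sumW n (fun w => star (f w)) := a1
    rw [a1']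
    have a2 := sumW_map (t.f.toAddMonoidHom.comp (AddMonoidHom.mulRight (sumW n f))) n (fun w => star (f w))
    have a2' : t.f (sumW n (fun w => star (f w)) * sumW n f) =
      sumW n (fun w => t.f (star (f w) * sumW n f)) := a2
    rw [a2']
    refine sumW_congr n (fun v _ => ?_)
    have a3 := sumW_map (t.f.toAddMonoidHom.comp (AddMonoidHom.mulLeft (star (f v)))) n f
    exact a3
  have e2 : t.n2 (sumW n f) ^ 2 = ‖t.f (star (sumW n f) * sumW n f)‖ := by
    rw [t.self_eq, Complex.norm_real, Real.norm_of_nonneg (by positivity)]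
  rw [e2, e1]
  refine (norm_sumW_le _ _).trans (sumW_mono n (fun v hv => (norm_sumW_le _ _).trans
    (sumW_mono n (fun w hw => h v w hv hw))))

end PosF

section growth

variable {R : Type u} [Ring R] [StarRing R] [Module ℂ R] [IsScalarTower ℂ R R]
  [SMulCommClass ℂ R R] [StarModule ℂ R] (t : PosF R)

/-- log-convexity of moments -/
lemma growth (h1 : t.n2 1 ≤ 1) (T : R) (hT : star T = T) (c : ℝ) (hc : 0 ≤ c) (hcT : c ≤ ‖t.f T‖) (j : ℕ) :
    c ^ (2 ^ j) ≤ ‖t.f (T ^ (2 ^ j))‖ := by
  induction j with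
  | zero => simpa using hcT
  | succ j ih =>
    have h2 := t.norm_le 1 (T ^ (2 ^ j))
    rw [star_one, one_mul] at h2
    have h3 : t.n2 (T ^ (2 ^ j)) ^ 2 = ‖t.f (T ^ (2 ^ (j + 1)))‖ := by
      have : T ^ (2 ^ (j + 1)) = star (T ^ (2 ^ j)) * T ^ (2 ^ j) := by
        rw [star_pow, hT, ← pow_add]; congr 1; ring
      rw [this, t.self_eq, Complex.norm_real, Real.norm_of_nonneg (by positivity)]
    rw [← h3]
    have h4 : c ^ (2 ^ j) ≤ t.n2 (T ^ (2 ^ j)) := by
      have := t.n2_nonneg (T ^ (2 ^ j))
      nlinarith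
    rw [pow_succ 2 j, pow_mul]
    have : 0 ≤ c ^ (2 ^ j) := by positivity
    gcongr

end growth

end Pool.Agent.Helper234.Nuc
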