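import Pool.Agent.Helper234.Nuc.B

set_option autoImplicit false
open scoped ComplexOrder
open scoped Matrix.Norms.L2Operator

namespace Pool.Agent.Helper234.Nuc

open Pool.Agent.Helper234.Brown (sumW sumW_map sumW_congr sumW_mono sumW_const sumW_add sumW_sum red ev
  pair_count_le red_reverse_append_iff ev_append ev_cons ev_nil ev_red)

universe u

/-- nonzero matrix units in a C*-algebra (not assumed to sum up to a unit) -/
structure IsMUn {U : Type u} [NonUnitalCStarAlgebra U] {X : Type} [DecidableEq X] (e : X → X → U) : Prop where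
  mul_eq : ∀ p q r s, e p q * e r s = if q = r then e p s else 0
  star_eq : ∀ p q, star (e p q) = e q p
  ne_zero : ∀ p, e p p ≠ 0

/-- data of a cpap pair -/
structure Pair (U : Type u) [NonUnitalCStarAlgebra U] (N : ℕ) where
  φ : U →ₗ[ℂ] Matrix (Fin N) (Fin N) ℂ
  ψ : Matrix (Fin N) (Fin N) ℂ →ₗ[ℂ] U
  φcp : ∀ (m : ℕ) (x : Fin m → U),
      (Matrix.of (fun p q : Fin m × Fin N => φ (star (x p.1) * x q.1) p.2 q.2)).PosSemidef
  ψcp : ∀ (m : ℕ) (Y : Fin m → Matrix (Fin N) (Fin N) ℂ) (y : Fin m → U),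
      ∃ s : U, ∑ i, ∑ j, star (y i) * ψ (star (Y i) * Y j) * y j = star s * s
  φc : ∀ a : U, ‖a‖ ≤ 1 → (1 - star (φ a) * φ a).PosSemidef
  ψc : ∀ M : Matrix (Fin N) (Fin N) ℂ, (1 - star M * M).PosSemidef → ‖ψ M‖ ≤ 1

lemma IsNuclear.exists_pair {U : Type u} [NonUnitalCStarAlgebra U] (h : IsNuclear U) (F : Finset U) (ε : ℝ)
    (hε : 0 < ε) : ∃ (N : ℕ) (P : Pair U N), ∀ a ∈ F, ‖P.ψ (P.φ a) - a‖ < ε := by
  obtain ⟨n, φ, ψ, h1, h2, h3, h4, h5⟩ := h F ε hε
  exact ⟨n, ⟨φ, ψ, h1, h2, h3, h4⟩, h5⟩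

section scale

lemma norm_le_of_unit_ball {E F : Type*} [NormedAddCommGroup E] [NormedSpace ℂ E] [NormedAddCommGroup F]
    [NormedSpace ℂ F] (f : E →ₗ[ℂ] F) (h : ∀ x, ‖x‖ ≤ 1 → ‖f x‖ ≤ 1) (x : E) : ‖f x‖ ≤ ‖x‖ := by
  by_cases hx : x = 0
  · simp [hx]
  have hx' : 0 < ‖x‖ := norm_pos_iff.mpr hx
  have h4 := h (((‖x‖ : ℂ)⁻¹) • x) (by
    rw [norm_smul, norm_inv, Complex.norm_real, norm_norm, inv_mul_cancel₀ hx'.ne'])
  rw [map_smul, norm_smul, norm_inv, Complex.norm_real, norm_norm] at h4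
  rwa [inv_mul_le_iff₀ hx', mul_one] at h4

variable {U : Type u} [NonUnitalCStarAlgebra U] {N : ℕ} (P : Pair U N)

lemma Pair.φ_norm (a : U) : ‖P.φ a‖ ≤ ‖a‖ :=
  norm_le_of_unit_ball P.φ (fun x hx => norm_le_one_iff_posSemidef.mpr (P.φc x hx)) a

lemma Pair.ψ_norm (M : Matrix (Fin N) (Fin N) ℂ) : ‖P.ψ M‖ ≤ ‖M‖ :=
  norm_le_of_unit_ball P.ψ (fun x hx => P.ψc x (norm_le_one_iff_posSemidef.mp hx)) M

lemma Pair.φ_pos (s : U) : (P.φ (star s * s)).PosSemidef := by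
  have := (P.φcp 1 (fun _ => s)).submatrix (fun p : Fin N => ((0 : Fin 1), p))
  exact this

lemma Pair.φ_sa (a : U) (ha : star a = a) : star (P.φ a) = P.φ a := by
  let _ := CStarAlgebra.spectralOrder U
  have := CStarAlgebra.spectralOrderedRing U
  obtain ⟨s, hs⟩ := CStarAlgebra.nonneg_iff_eq_star_mul_self.mp (CFC.posPart_nonneg a)
  obtain ⟨r, hr⟩ := CStarAlgebra.nonneg_iff_eq_star_mul_self.mp (CFC.negPart_nonneg a)
  have h1 : a = star s * s - star r * r := by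
    rw [← hs, ← hr]
    exact (CFC.posPart_sub_negPart a ha).symm
  rw [h1, map_sub, star_sub]
  have h2 : star (P.φ (star s * s)) = P.φ (star s * s) := (P.φ_pos s).1
  have h3 : star (P.φ (star r * r)) = P.φ (star r * r) := (P.φ_pos r).1
  rw [h2, h3]

lemma Pair.ψcp' {X : Type} [Fintype X] (Y : X → Matrix (Fin N) (Fin N) ℂ) (y : X → U) :
    ∃ s : U, ∑ i, ∑ j, star (y i) * P.ψ (star (Y i) * Y j) * y j = star s * s := by
  let e := Fintype.equivFin X
  obtain ⟨s, hs⟩ := P.ψcp (Fintype.card X) (fun i => Y (e.symm i)) (fun i => y (e.symm i))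
  refine ⟨s, ?_⟩
  rw [← hs]
  refine Fintype.sum_equiv e _ _ (fun i => ?_)
  refine Fintype.sum_equiv e _ _ (fun j => ?_)
  simp

end scale

section state

variable {U : Type u} [NonUnitalCStarAlgebra U]

/-- A positive functional of norm at most two taking the value one at a given projection. -/
lemma exists_functional (hU : IsNuclear U) (e : U) (he : e = star e * e) (hne : e ≠ 0) :
    ∃ ω : PosF U, ω.f e = 1 ∧ ∀ a, ‖ω.f a‖ ≤ 2 * ‖a‖ := by
  have hnorm : ‖e‖ = 1 := by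
    have h1 : ‖e‖ = ‖e‖ * ‖e‖ := by
      conv_lhs => rw [he]
      exact CStarRing.norm_star_mul_self
    have h2 : ‖e‖ ≠ 0 := norm_ne_zero_iff.mpr hne
    field_simp at h1
    exact h1.symm
  obtain ⟨N, P, hP⟩ := hU.exists_pair {e} (1/4) (by norm_num)
  have hP1 := hP e (Finset.mem_singleton_self e)
  have hpsd : (P.φ e).PosSemidef := by rw [he]; exact P.φ_pos e
  have key : ∃ v : Fin N → ℂ, (1/2 : ℝ) * (star v ⬝ᵥ v).re < (star v ⬝ᵥ (P.φ e).mulVec v).re := by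
    by_contra hcon
    push Not at hcon
    have h1 : ((1/2 : ℂ) • (1 : Matrix (Fin N) (Fin N) ℂ) - P.φ e).PosSemidef := by
      refine Matrix.PosSemidef.of_dotProduct_mulVec_nonneg ?_ ?_
      · rw [Matrix.IsHermitian, Matrix.conjTranspose_sub, hpsd.1, Matrix.conjTranspose_smul,
          Matrix.conjTranspose_one]
        norm_num
      · intro v
        rw [Matrix.sub_mulVec, Matrix.smul_mulVec, Matrix.one_mulVec, dotProduct_sub, dotProduct_smul]
        have h2 := hcon v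
        have h3 := hpsd.dotProduct_mulVec_nonneg v
        have h4 : 0 ≤ star v ⬝ᵥ v := dotProduct_star_self_nonneg v
        rw [Complex.le_def] at h3 h4 ⊢
        refine ⟨?_, ?_⟩
        · simp only [Complex.zero_re, Complex.sub_re, smul_eq_mul, Complex.mul_re]
          norm_num
          norm_num at h2
          exact h2
        · simp only [Complex.zero_im, Complex.sub_im, smul_eq_mul, Complex.mul_im]
          rw [← h3.2, ← h4.2]
          norm_num
    have h2 : ‖P.φ e‖ ≤ 1/2 := by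
      open scoped MatrixOrder in
      have h3 : P.φ e ≤ (1/2 : ℂ) • (1 : Matrix (Fin N) (Fin N) ℂ) := Matrix.le_iff.mpr h1
      open scoped MatrixOrder in
      have h4 := CStarAlgebra.norm_le_norm_of_nonneg_of_le hpsd.nonneg h3
      refine h4.trans ?_
      rw [norm_smul]
      have h5 : ‖(1 : Matrix (Fin N) (Fin N) ℂ)‖ ≤ 1 := by
        have h6 : ‖(1 : Matrix (Fin N) (Fin N) ℂ)‖ = ‖(1 : Matrix (Fin N) (Fin N) ℂ)‖ * ‖(1 : Matrix (Fin N) (Fin N) ℂ)‖ := by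
          have h7 := CStarRing.norm_star_mul_self (x := (1 : Matrix (Fin N) (Fin N) ℂ))
          rwa [star_one, one_mul] at h7
        nlinarith [norm_nonneg (1 : Matrix (Fin N) (Fin N) ℂ)]
      norm_num
      exact h5
    have h3 := P.ψ_norm (P.φ e)
    have h4 : ‖e‖ ≤ ‖P.ψ (P.φ e) - e‖ + ‖P.ψ (P.φ e)‖ := by
      rw [norm_sub_rev]
      calc ‖e‖ = ‖(e - P.ψ (P.φ e)) + P.ψ (P.φ e)‖ := by simp
        _ ≤ _ := norm_add_le _ _
    rw [hnorm] at h4
    linarith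
  obtain ⟨v, hv⟩ := key
  have hv0 : 0 ≤ (star v ⬝ᵥ v).re := by
    have h4 : 0 ≤ star v ⬝ᵥ v := dotProduct_star_self_nonneg v
    rw [Complex.le_def] at h4
    exact h4.1
  set c : ℝ := (star v ⬝ᵥ (P.φ e).mulVec v).re with hc
  have hcpos : 0 < c := by linarith
  have hce : star v ⬝ᵥ (P.φ e).mulVec v = (c : ℂ) := by
    have h3 := hpsd.dotProduct_mulVec_nonneg v
    rw [Complex.le_def] at h3
    apply Complex.ext
    · simp [hc]
    · rw [← h3.2]; simp
  let f : U →ₗ[ℂ] ℂ :=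
    { toFun := fun a => ((c : ℂ)⁻¹) * (star v ⬝ᵥ (P.φ a).mulVec v)
      map_add' := fun a b => by rw [map_add, Matrix.add_mulVec, dotProduct_add, mul_add]
      map_smul' := fun r a => by
        rw [map_smul, Matrix.smul_mulVec, dotProduct_smul, RingHom.id_apply, smul_eq_mul, smul_eq_mul]
        ring }
  refine ⟨⟨f, ?_⟩, ?_, ?_⟩
  · intro s
    show 0 ≤ ((c : ℂ)⁻¹) * (star v ⬝ᵥ (P.φ (star s * s)).mulVec v)
    have h3 := (P.φ_pos s).dotProduct_mulVec_nonneg v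
    have h4 : (0 : ℂ) ≤ (c : ℂ)⁻¹ := by
      rw [← Complex.ofReal_inv]
      exact_mod_cast (inv_pos.mpr hcpos).le
    exact mul_nonneg h4 h3
  · show ((c : ℂ)⁻¹) * (star v ⬝ᵥ (P.φ e).mulVec v) = 1
    rw [hce, inv_mul_cancel₀]
    exact_mod_cast hcpos.ne'
  · intro a
    show ‖((c : ℂ)⁻¹) * (star v ⬝ᵥ (P.φ a).mulVec v)‖ ≤ 2 * ‖a‖
    have h5 : ‖star v ⬝ᵥ (P.φ a).mulVec v‖ ≤ ‖P.φ a‖ * (star v ⬝ᵥ v).re := by
      let V : EuclideanSpace ℂ (Fin N) := WithLp.toLp 2 v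
      have e1 : star v ⬝ᵥ (P.φ a).mulVec v = inner ℂ V (WithLp.toLp 2 ((P.φ a).mulVec v)) := by
        rw [EuclideanSpace.inner_toLp_toLp, dotProduct_comm]
      have e2 : (star v ⬝ᵥ v).re = ‖V‖ ^ 2 := by
        have : star v ⬝ᵥ v = inner ℂ V V := by
          rw [EuclideanSpace.inner_toLp_toLp, dotProduct_comm]
        rw [this, inner_self_eq_norm_sq_to_K]
        norm_cast
      rw [e1, e2]
      have h6 := norm_inner_le_norm (𝕜 := ℂ) V (WithLp.toLp 2 ((P.φ a).mulVec v))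
      have h7 := Matrix.l2_opNorm_mulVec (P.φ a) V
      have h8 : ‖(WithLp.toLp 2 ((P.φ a).mulVec v) : EuclideanSpace ℂ (Fin N))‖ ≤ ‖P.φ a‖ * ‖V‖ := h7
      calc _ ≤ ‖V‖ * (‖P.φ a‖ * ‖V‖) := h6.trans (by gcongr)
        _ = _ := by ring
    rw [norm_mul, norm_inv, Complex.norm_real, Real.norm_of_nonneg hcpos.le]
    have h6 := P.φ_norm a
    rw [inv_mul_le_iff₀ hcpos]
    calc _ ≤ ‖P.φ a‖ * (star v ⬝ᵥ v).re := h5
      _ ≤ ‖a‖ * (2 * c) := by
        have : (star v ⬝ᵥ v).re ≤ 2 * c := by linarith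
        gcongr
      _ = _ := by ring

end state

end Pool.Agent.Helper234.Nuc
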