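import Pool.Agent.Helper234.Nuc.C

set_option autoImplicit false
open scoped ComplexOrder
open scoped Matrix.Norms.L2Operator

namespace Pool.Agent.Helper234.Nuc

open Pool.Agent.Helper234.Brown (sumW sumW_map sumW_congr sumW_mono sumW_const sumW_add sumW_sum red ev
  pair_count_le red_reverse_append_iff ev_append ev_cons ev_nil ev_red ev_reverse_star)

universe u

section omega

variable {U : Type u} [NonUnitalCStarAlgebra U] (ω : PosF U)

lemma PosF.n2_mul_le (b c : U) : ω.n2 (b * c) ≤ ‖b‖ * ω.n2 c := by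
  let _ := CStarAlgebra.spectralOrder U
  have := CStarAlgebra.spectralOrderedRing U
  have h1 : star c * (star b * b) * c ≤ ‖star b * b‖ • (star c * c) :=
    CStarAlgebra.star_left_conjugate_le_norm_smul (IsSelfAdjoint.star_mul_self b)
  obtain ⟨s, hs⟩ := CStarAlgebra.nonneg_iff_eq_star_mul_self.mp (sub_nonneg.mpr h1)
  have h2 := ω.self_re_nonneg s
  rw [← hs, map_sub, Complex.sub_re, CStarRing.norm_star_mul_self] at h2
  have h3 : (ω.f ((‖b‖ * ‖b‖) • (star c * c))).re = ‖b‖ * ‖b‖ * (ω.f (star c * c)).re := by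
    rw [← Complex.coe_smul, map_smul, smul_eq_mul, Complex.re_ofReal_mul]
  rw [h3] at h2
  have h4 : star c * (star b * b) * c = star (b * c) * (b * c) := by
    rw [star_mul]; simp only [mul_assoc]
  rw [h4, ← ω.n2_sq, ← ω.n2_sq] at h2
  have h5 : ω.n2 (b * c) ^ 2 ≤ (‖b‖ * ω.n2 c) ^ 2 := by nlinarith
  exact le_of_sq_le_sq h5 (mul_nonneg (norm_nonneg _) (ω.n2_nonneg _))

lemma PosF.norm_conj_le (b c : U) : ‖ω.f (star c * b * c)‖ ≤ ‖b‖ * ω.n2 c ^ 2 := by
  rw [mul_assoc]
  refine (ω.norm_le c (b * c)).trans ?_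
  have := ω.n2_mul_le b c
  have h2 := ω.n2_nonneg c
  nlinarith

end omega

section alg

variable {X : Type} [Fintype X] [DecidableEq X] {N : ℕ}

/-- constant diagonal -/
def DD (X : Type) [DecidableEq X] (z : Matrix (Fin N) (Fin N) ℂ) :
    Matrix X X (Matrix (Fin N) (Fin N) ℂ) := Matrix.diagonal fun _ => z

/-- scalar matrices amplified -/
def PP (N : ℕ) (Y : Matrix X X ℂ) : Matrix X X (Matrix (Fin N) (Fin N) ℂ) :=
  Matrix.of fun x y => Y x y • (1 : Matrix (Fin N) (Fin N) ℂ)

lemma DD_mul_PP_apply (z : Matrix (Fin N) (Fin N) ℂ) (Y : Matrix X X ℂ) (x y : X) :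
    (DD X z * PP N Y) x y = Y x y • z := by
  rw [DD, Matrix.diagonal_mul, PP, Matrix.of_apply, mul_smul_comm, mul_one]

lemma PP_mul_DD (z : Matrix (Fin N) (Fin N) ℂ) (Y : Matrix X X ℂ) : PP N Y * DD X z = DD X z * PP N Y := by
  ext1 x y
  rw [DD_mul_PP_apply, DD, Matrix.mul_diagonal, PP, Matrix.of_apply, smul_mul_assoc, one_mul]

lemma DD_mul (z w : Matrix (Fin N) (Fin N) ℂ) : DD X z * DD X w = DD X (z * w) := by
  rw [DD, DD, Matrix.diagonal_mul_diagonal, DD]

omit [DecidableEq X] in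
lemma PP_mul (Y Z : Matrix X X ℂ) : PP N Y * PP N Z = PP N (Y * Z) := by
  ext1 x y
  rw [Matrix.mul_apply]
  simp only [PP, Matrix.of_apply, smul_mul_smul_comm, one_mul]
  rw [← Finset.sum_smul, Matrix.mul_apply]

lemma star_DD (z : Matrix (Fin N) (Fin N) ℂ) : star (DD X z) = DD X (star z) := by
  rw [DD, Matrix.star_eq_conjTranspose, Matrix.diagonal_conjTranspose, DD]
  rfl

omit [Fintype X] [DecidableEq X] in
lemma star_PP (Y : Matrix X X ℂ) : star (PP N Y) = PP N (star Y) := by
  ext1 x y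
  rw [Matrix.star_apply, PP, PP, Matrix.of_apply, Matrix.of_apply, star_smul, star_one, Matrix.star_apply]

omit [Fintype X] in
lemma PP_one : PP N (1 : Matrix X X ℂ) = 1 := by
  ext1 x y
  rw [PP, Matrix.of_apply, Matrix.one_apply, Matrix.one_apply]
  split_ifs <;> simp

omit [Fintype X] in
lemma DD_one : DD X (1 : Matrix (Fin N) (Fin N) ℂ) = 1 := by
  rw [DD, Matrix.diagonal_one]

/-- `PP` as an additive map after multiplication by a diagonal -/
def DPhom (z : Matrix (Fin N) (Fin N) ℂ) : Matrix X X ℂ →+ Matrix X X (Matrix (Fin N) (Fin N) ℂ) where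
  toFun Y := DD X z * PP N Y
  map_zero' := by
    ext1 x y
    rw [DD_mul_PP_apply]; simp
  map_add' Y Z := by
    ext1 x y
    rw [Matrix.add_apply, DD_mul_PP_apply, DD_mul_PP_apply, DD_mul_PP_apply, Matrix.add_apply, add_smul]

lemma expand (z : Matrix (Fin N) (Fin N) ℂ) (Y : Matrix X X ℂ) :
    DD X z * PP N Y = ∑ p, ∑ q, DD X (Matrix.single p q (1 : ℂ)) * PP N (z p q • Y) := by
  ext1 x y
  rw [DD_mul_PP_apply, Matrix.sum_apply]
  simp only [Matrix.sum_apply, DD_mul_PP_apply]
  conv_lhs => rw [Matrix.matrix_eq_sum_single z]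
  rw [Finset.smul_sum]
  refine Finset.sum_congr rfl fun p _ => ?_
  rw [Finset.smul_sum]
  refine Finset.sum_congr rfl fun q _ => ?_
  rw [Matrix.smul_apply, smul_eq_mul, Matrix.smul_single, Matrix.smul_single]
  simp [mul_comm]

/-- permutation matrices -/
def pm (σ : Equiv.Perm X) : Matrix X X ℂ := Matrix.of fun x y => if x = σ y then 1 else 0

lemma pm_mul (σ τ : Equiv.Perm X) : pm σ * pm τ = pm (σ * τ) := by
  ext x y
  rw [Matrix.mul_apply]
  simp only [pm, Matrix.of_apply]
  rw [Finset.sum_eq_single (τ y)]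
  · rw [Equiv.Perm.mul_apply]
    by_cases h : x = σ (τ y)
    · rw [if_pos h, if_pos rfl, mul_one]
    · rw [if_neg h, zero_mul]
  · intro b _ hb
    rw [if_neg hb, mul_zero]
  · simp

omit [Fintype X] in
lemma star_pm (σ : Equiv.Perm X) : star (pm σ) = pm σ⁻¹ := by
  ext x y
  rw [Matrix.star_apply]
  simp only [pm, Matrix.of_apply]
  have : y = σ x ↔ x = σ⁻¹ y := by
    rw [Equiv.Perm.eq_inv_iff_eq, eq_comm]
  simp only [this]
  split_ifs <;> simp

omit [Fintype X] in
lemma pm_one : pm (1 : Equiv.Perm X) = 1 := by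
  ext x y
  rw [pm, Matrix.of_apply, Matrix.one_apply]
  rfl

lemma inv_card_nonneg (X : Type) [Fintype X] : (0 : ℂ) ≤ (Fintype.card X : ℂ)⁻¹ := by
  rw [← Complex.ofReal_natCast, ← Complex.ofReal_inv]
  exact_mod_cast inv_nonneg.mpr (Nat.cast_nonneg (Fintype.card X))

lemma sum_rot {M A B C : Type*} [AddCommMonoid M] [Fintype A] [Fintype B] [Fintype C] (g : A → B → C → M) :
    ∑ x, ∑ y, ∑ a, g x y a = ∑ a, ∑ x, ∑ y, g x y a := by
  calc ∑ x, ∑ y, ∑ a, g x y a = ∑ x, ∑ a, ∑ y, g x y a :=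
        Finset.sum_congr rfl fun x _ => Finset.sum_comm
    _ = _ := Finset.sum_comm

/-- normalized trace -/
noncomputable def ntr (X : Type) [Fintype X] : PosF (Matrix X X ℂ) where
  f := (Fintype.card X : ℂ)⁻¹ • Matrix.traceLinearMap X ℂ ℂ
  pos Y := by
    rw [LinearMap.smul_apply, Matrix.traceLinearMap_apply, smul_eq_mul]
    refine mul_nonneg ?_ ?_
    · exact inv_card_nonneg X
    · exact (Matrix.posSemidef_conjTranspose_mul_self Y).trace_nonneg

omit [DecidableEq X] in
lemma ntr_apply (Y : Matrix X X ℂ) : (ntr X).f Y = (Fintype.card X : ℂ)⁻¹ * ∑ x, Y x x := rfl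

omit [DecidableEq X] in
lemma ntr_n2_sq (Y : Matrix X X ℂ) : (ntr X).n2 Y ^ 2 = (Fintype.card X : ℝ)⁻¹ * ∑ r, ∑ y, ‖Y r y‖ ^ 2 := by
  rw [PosF.n2_sq, ntr_apply]
  have h1 : ∀ x, (star Y * Y) x x = ((∑ r, ‖Y r x‖ ^ 2 : ℝ) : ℂ) := by
    intro x
    rw [Matrix.mul_apply, Complex.ofReal_sum]
    refine Finset.sum_congr rfl fun r _ => ?_
    rw [Matrix.star_apply, Complex.star_def, Complex.conj_mul', Complex.ofReal_pow]
  simp only [h1]
  rw [← Complex.ofReal_sum, ← Complex.ofReal_natCast, ← Complex.ofReal_inv, ← Complex.ofReal_mul,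
    Complex.ofReal_re, Finset.sum_comm]

lemma ntr_pm (ρ : Equiv.Perm X) : (ntr X).f (pm ρ) =
    (Finset.univ.filter (fun x => ρ x = x)).card / Fintype.card X := by
  rw [ntr_apply]
  simp only [pm, Matrix.of_apply]
  rw [← Finset.sum_filter, Finset.sum_const, nsmul_eq_mul, mul_one]
  rw [show (Finset.univ.filter (fun x => x = ρ x)) = (Finset.univ.filter (fun x => ρ x = x)) from by
    ext x; simp [eq_comm]]
  ring

end alg

section phi

variable {U : Type u} [NonUnitalCStarAlgebra U] {X : Type} [Fintype X] [DecidableEq X] {N : ℕ}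

/-- the functional on the amplified matrix algebra -/
noncomputable def Phi (P : Pair U N) (ω : PosF U) (e : X → X → U) (x₀ : X) :
    PosF (Matrix X X (Matrix (Fin N) (Fin N) ℂ)) where
  f :=
    { toFun := fun S => (Fintype.card X : ℂ)⁻¹ * ∑ x, ∑ y, ω.f (star (e x x₀) * P.ψ (S x y) * e y x₀)
      map_add' := by
        intro S T
        rw [← mul_add, ← Finset.sum_add_distrib]
        congr 1
        refine Finset.sum_congr rfl fun x _ => ?_
        rw [← Finset.sum_add_distrib]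
        refine Finset.sum_congr rfl fun y _ => ?_
        rw [Matrix.add_apply, map_add, mul_add, add_mul, map_add]
      map_smul' := by
        intro c S
        rw [RingHom.id_apply, smul_eq_mul, mul_left_comm]
        congr 1
        rw [Finset.mul_sum]
        refine Finset.sum_congr rfl fun x _ => ?_
        rw [Finset.mul_sum]
        refine Finset.sum_congr rfl fun y _ => ?_
        rw [Matrix.smul_apply, map_smul, mul_smul_comm, smul_mul_assoc, map_smul, smul_eq_mul] }
  pos S := by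
    show 0 ≤ (Fintype.card X : ℂ)⁻¹ * ∑ x, ∑ y, ω.f (star (e x x₀) * P.ψ ((star S * S) x y) * e y x₀)
    refine mul_nonneg ?_ ?_
    · exact inv_card_nonneg X
    · have h1 : ∑ x, ∑ y, ω.f (star (e x x₀) * P.ψ ((star S * S) x y) * e y x₀) =
          ∑ a, ω.f (∑ x, ∑ y, star (e x x₀) * P.ψ (star (S a x) * S a y) * e y x₀) := by
        have h2 : ∀ x y, ω.f (star (e x x₀) * P.ψ ((star S * S) x y) * e y x₀) =
            ∑ a, ω.f (star (e x x₀) * P.ψ (star (S a x) * S a y) * e y x₀) := by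
          intro x y
          rw [Matrix.mul_apply, map_sum, Finset.mul_sum, Finset.sum_mul, map_sum]
          rfl
        simp only [h2, map_sum]
        exact sum_rot _
      rw [h1]
      refine Finset.sum_nonneg fun a _ => ?_
      obtain ⟨s, hs⟩ := P.ψcp' (fun x => S a x) (fun x => e x x₀)
      rw [hs]
      exact ω.pos s

end phi

end Pool.Agent.Helper234.Nuc
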