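import Mathlib

set_option autoImplicit false
open scoped ComplexOrder

namespace Pool.Agent.Helper234.Nuc

universe u

/-- Nuclearity of a (not necessarily unital) C*-algebra, through the completely positive
approximation property: the identity of `A` is a point-norm limit of compositions
`A → Mₙ(ℂ) → A` of completely positive contractions.  This is word for word the condition used in
the Lean statement of the problem. -/
def IsNuclear (A : Type u) [NonUnitalCStarAlgebra A] : Prop :=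
  ∀ (F : Finset A) (ε : ℝ), 0 < ε → ∃ (n : ℕ) (φ : A →ₗ[ℂ] Matrix (Fin n) (Fin n) ℂ)
      (ψ : Matrix (Fin n) (Fin n) ℂ →ₗ[ℂ] A),
    (∀ (m : ℕ) (x : Fin m → A),
      (Matrix.of (fun p q : Fin m × Fin n => φ (star (x p.1) * x q.1) p.2 q.2)).PosSemidef) ∧
    (∀ (m : ℕ) (Y : Fin m → Matrix (Fin n) (Fin n) ℂ) (y : Fin m → A),
      ∃ s : A, ∑ i, ∑ j, star (y i) * ψ (star (Y i) * Y j) * y j = star s * s) ∧
    (∀ a : A, ‖a‖ ≤ 1 → (1 - star (φ a) * φ a).PosSemidef) ∧
    (∀ M : Matrix (Fin n) (Fin n) ℂ, (1 - star M * M).PosSemidef → ‖ψ M‖ ≤ 1) ∧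
    ∀ a ∈ F, ‖ψ (φ a) - a‖ < ε

end Pool.Agent.Helper234.Nuc
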