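import Pool.Agent.Helper234.Nuc.D

set_option autoImplicit false
open scoped ComplexOrder
open scoped Matrix.Norms.L2Operator

namespace Pool.Agent.Helper234.Nuc

open Pool.Agent.Helper234.Brown (sumW sumW_map sumW_congr sumW_mono sumW_const sumW_add sumW_sum red ev
  pair_count_le red_reverse_append_iff ev_append ev_cons ev_nil ev_red ev_reverse_star)

universe u

section bounds

variable {U : Type u} [NonUnitalCStarAlgebra U] {X : Type} [Fintype X] [DecidableEq X] {N : ℕ}
  (P : Pair U N) (ω : PosF U) (e : X → X → U) (x₀ : X)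

lemma Phi_apply (S : Matrix X X (Matrix (Fin N) (Fin N) ℂ)) : (Phi P ω e x₀).f S =
    (Fintype.card X : ℂ)⁻¹ * ∑ x, ∑ y, ω.f (star (e x x₀) * P.ψ (S x y) * e y x₀) := rfl

variable (he : IsMUn e) (hω : ω.f (e x₀ x₀) = 1)

include he hω in
lemma n2_unit (x : X) : ω.n2 (e x x₀) = 1 := by
  have h1 : ω.n2 (e x x₀) ^ 2 = 1 := by
    rw [ω.n2_sq, he.star_eq, he.mul_eq, if_pos rfl, hω]; rfl
  have h2 := ω.n2_nonneg (e x x₀)
  nlinarith

include he hω in
lemma n2_comb (c : X → ℂ) : ω.n2 (∑ y, c y • e y x₀) ^ 2 = ∑ y, ‖c y‖ ^ 2 := by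
  have h1 : star (∑ y, c y • e y x₀) * (∑ y, c y • e y x₀) = ((∑ y, ‖c y‖ ^ 2 : ℝ) : ℂ) • e x₀ x₀ := by
    rw [star_sum, Finset.sum_mul, Complex.ofReal_sum, Finset.sum_smul]
    refine Finset.sum_congr rfl fun x _ => ?_
    rw [Finset.mul_sum, Finset.sum_eq_single x]
    · rw [star_smul, he.star_eq, smul_mul_smul_comm, he.mul_eq, if_pos rfl, Complex.star_def,
        Complex.conj_mul', Complex.ofReal_pow]
    · intro y _ hy
      rw [star_smul, he.star_eq, smul_mul_smul_comm, he.mul_eq, if_neg (Ne.symm hy), smul_zero]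
    · simp
  rw [ω.n2_sq, h1, map_smul, hω, smul_eq_mul, mul_one, Complex.ofReal_re]

include he hω in
lemma n2_DD_le (z : Matrix (Fin N) (Fin N) ℂ) : (Phi P ω e x₀).n2 (DD X z) ≤ ‖z‖ := by
  have hcard : (0 : ℝ) < Fintype.card X := by exact_mod_cast (Fintype.card_pos_iff.mpr ⟨x₀⟩)
  have h1 : (Phi P ω e x₀).n2 (DD X z) ^ 2 ≤ ‖z‖ ^ 2 := by
    have e1 : (Phi P ω e x₀).n2 (DD X z) ^ 2 = ‖(Phi P ω e x₀).f (star (DD X z) * DD X z)‖ := by
      rw [PosF.self_eq, Complex.norm_real, Real.norm_of_nonneg (by positivity)]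
    rw [e1, star_DD, DD_mul, Phi_apply, norm_mul, norm_inv, Complex.norm_natCast]
    have h2 : ∀ x, ∑ y, ω.f (star (e x x₀) * P.ψ (DD X (star z * z) x y) * e y x₀) =
        ω.f (star (e x x₀) * P.ψ (star z * z) * e x x₀) := by
      intro x
      rw [Finset.sum_eq_single x]
      · rw [DD, Matrix.diagonal_apply_eq]
      · intro y _ hy
        rw [DD, Matrix.diagonal_apply_ne _ (Ne.symm hy), map_zero, mul_zero, zero_mul, map_zero]
      · simp
    simp only [h2]
    have h3 : ‖∑ x, ω.f (star (e x x₀) * P.ψ (star z * z) * e x x₀)‖ ≤ ∑ x : X, ‖z‖ ^ 2 := by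
      refine (norm_sum_le _ _).trans (Finset.sum_le_sum fun x _ => ?_)
      refine (ω.norm_conj_le _ _).trans ?_
      rw [n2_unit ω e x₀ he hω x, one_pow, mul_one]
      refine (P.ψ_norm _).trans ?_
      rw [CStarRing.norm_star_mul_self, sq]
    rw [Finset.sum_const, nsmul_eq_mul, Finset.card_univ] at h3
    rw [inv_mul_le_iff₀ hcard]
    exact h3
  exact le_of_sq_le_sq h1 (norm_nonneg _)

include he hω in
lemma n2_PP_le (Y : Matrix X X ℂ) : (Phi P ω e x₀).n2 (PP N Y) ≤ (ntr X).n2 Y := by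
  have hcard : (0 : ℝ) < Fintype.card X := by exact_mod_cast (Fintype.card_pos_iff.mpr ⟨x₀⟩)
  have h1 : (Phi P ω e x₀).n2 (PP N Y) ^ 2 ≤ (ntr X).n2 Y ^ 2 := by
    have e1 : (Phi P ω e x₀).n2 (PP N Y) ^ 2 = ‖(Phi P ω e x₀).f (star (PP N Y) * PP N Y)‖ := by
      rw [PosF.self_eq, Complex.norm_real, Real.norm_of_nonneg (by positivity)]
    rw [e1, star_PP, PP_mul, Phi_apply, norm_mul, norm_inv, Complex.norm_natCast, ntr_n2_sq]
    have h2 : ∑ x, ∑ y, ω.f (star (e x x₀) * P.ψ (PP N (star Y * Y) x y) * e y x₀) =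
        ∑ r, ω.f (star (∑ y, Y r y • e y x₀) * P.ψ 1 * (∑ y, Y r y • e y x₀)) := by
      have h3 : ∀ r, ω.f (star (∑ y, Y r y • e y x₀) * P.ψ 1 * (∑ y, Y r y • e y x₀)) =
          ∑ x, ∑ y, (star (Y r x) * Y r y) * ω.f (star (e x x₀) * P.ψ 1 * e y x₀) := by
        intro r
        rw [star_sum, Finset.sum_mul, Finset.sum_mul, map_sum]
        refine Finset.sum_congr rfl fun x _ => ?_
        rw [Finset.mul_sum, map_sum]
        refine Finset.sum_congr rfl fun y _ => ?_
        rw [star_smul, smul_mul_assoc, smul_mul_smul_comm, map_smul, smul_eq_mul]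
      simp only [h3]
      rw [← sum_rot]
      refine Finset.sum_congr rfl fun x _ => Finset.sum_congr rfl fun y _ => ?_
      rw [← Finset.sum_mul, PP, Matrix.of_apply, map_smul, mul_smul_comm, smul_mul_assoc, map_smul,
        smul_eq_mul, Matrix.mul_apply]
      rfl
    rw [h2]
    refine mul_le_mul_of_nonneg_left ?_ (by positivity)
    refine (norm_sum_le _ _).trans (Finset.sum_le_sum fun r _ => ?_)
    refine (ω.norm_conj_le _ _).trans ?_
    rw [n2_comb ω e x₀ he hω]
    have h4 : ‖P.ψ 1‖ ≤ 1 := P.ψc 1 (by simpa using Matrix.PosSemidef.zero)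
    have h5 : 0 ≤ ∑ y, ‖Y r y‖ ^ 2 := Finset.sum_nonneg fun _ _ => by positivity
    nlinarith
  exact le_of_sq_le_sq h1 (PosF.n2_nonneg _ _)

end bounds

section words

variable {X : Type} [Fintype X] [DecidableEq X] {N : ℕ}

/-- the operator `∑ A i ⊗ σ i` -/
noncomputable def TT (A : Fin 16 → Matrix (Fin N) (Fin N) ℂ) (σ : Fin 16 → Equiv.Perm X) :
    Matrix X X (Matrix (Fin N) (Fin N) ℂ) := ∑ i, DD X (A i) * PP N (pm (σ i))

lemma TT_pow (A : Fin 16 → Matrix (Fin N) (Fin N) ℂ) (σ : Fin 16 → Equiv.Perm X) (m : ℕ) :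
    TT A σ ^ m = sumW m (fun w => DD X (ev A w) * PP N (pm (ev σ w))) := by
  induction m with
  | zero => simp [sumW, pm_one, PP_one, DD_one]
  | succ m ih =>
    rw [pow_succ', ih, TT, Finset.sum_mul]
    simp only [sumW]
    refine Finset.sum_congr rfl fun i _ => ?_
    have := sumW_map (AddMonoidHom.mulLeft (DD X (A i) * PP N (pm (σ i)))) m
      (fun w => DD X (ev A w) * PP N (pm (ev σ w)))
    simp only [AddMonoidHom.coe_mulLeft] at this
    rw [this]
    refine sumW_congr m (fun w _ => ?_)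
    rw [ev_cons, ev_cons, ← DD_mul, ← pm_mul, ← PP_mul]
    simp only [mul_assoc]
    congr 1
    rw [← mul_assoc, ← mul_assoc, PP_mul_DD]

lemma TT_pow' (A : Fin 16 → Matrix (Fin N) (Fin N) ℂ) (σ : Fin 16 → Equiv.Perm X) (m : ℕ) :
    TT A σ ^ m = ∑ p, ∑ q, DD X (Matrix.single p q (1 : ℂ)) *
      PP N (sumW m (fun w => (ev A w) p q • pm (ev σ w))) := by
  rw [TT_pow]
  have h1 : (fun w => DD X (ev A w) * PP N (pm (ev σ w))) =
      fun w => ∑ p, ∑ q, DD X (Matrix.single p q (1 : ℂ)) * PP N ((ev A w) p q • pm (ev σ w)) := by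
    funext w
    exact expand _ _
  rw [h1, sumW_sum]
  refine Finset.sum_congr rfl fun p _ => ?_
  rw [sumW_sum]
  refine Finset.sum_congr rfl fun q _ => ?_
  exact (sumW_map (DPhom (Matrix.single p q (1 : ℂ))) m _).symm

lemma star_TT (A : Fin 16 → Matrix (Fin N) (Fin N) ℂ) (σ : Fin 16 → Equiv.Perm X)
    (hA : ∀ i, star (A i) = A i) (hσ : ∀ i, σ i * σ i = 1) : star (TT A σ) = TT A σ := by
  rw [TT, star_sum]
  refine Finset.sum_congr rfl fun i _ => ?_
  rw [star_mul, star_DD, star_PP, star_pm, hA, PP_mul_DD]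
  congr 3
  exact inv_eq_of_mul_eq_one_left (hσ i)

lemma norm_ev_le (A : Fin 16 → Matrix (Fin N) (Fin N) ℂ) (hA : ∀ i, ‖A i‖ ≤ 1) (w : List (Fin 16)) :
    ‖ev A w‖ ≤ 1 := by
  induction w with
  | nil =>
    rw [ev_nil]
    have h7 := CStarRing.norm_star_mul_self (x := (1 : Matrix (Fin N) (Fin N) ℂ))
    rw [star_one, one_mul] at h7
    nlinarith [norm_nonneg (1 : Matrix (Fin N) (Fin N) ℂ)]
  | cons i w ih =>
    rw [ev_cons]
    refine (norm_mul_le _ _).trans ?_
    have := hA i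
    calc ‖A i‖ * ‖ev A w‖ ≤ 1 * 1 := by gcongr
      _ = 1 := by norm_num

lemma entry_le (M : Matrix (Fin N) (Fin N) ℂ) (p q : Fin N) : ‖M p q‖ ≤ ‖M‖ := by
  have h1 := Matrix.l2_opNorm_mulVec M (EuclideanSpace.single q (1 : ℂ))
  have h0 : ‖(EuclideanSpace.single q (1 : ℂ) : EuclideanSpace ℂ (Fin N))‖ = 1 := by simp
  rw [h0, mul_one] at h1
  refine le_trans ?_ h1
  have h2 := PiLp.norm_apply_le ((EuclideanSpace.equiv (Fin N) ℂ).symm
    (M.mulVec (EuclideanSpace.single q (1 : ℂ)).ofLp)) p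
  refine le_trans ?_ h2
  have h3 : ((EuclideanSpace.equiv (Fin N) ℂ).symm
    (M.mulVec (EuclideanSpace.single q (1 : ℂ)).ofLp)) p = M p q := by
    show (M.mulVec (Pi.single q (1 : ℂ))) p = M p q
    rw [Matrix.mulVec_single_one]
    rfl
  rw [h3]

lemma words_bound (A : Fin 16 → Matrix (Fin N) (Fin N) ℂ) (hA : ∀ i, ‖A i‖ ≤ 1)
    (σ : Fin 16 → Equiv.Perm X) (hσ : ∀ i, σ i * σ i = 1) (m : ℕ) [Nonempty X]
    (hfix : ∀ w : List (Fin 16), w.length ≤ 2 * m → red w ≠ [] →
      (Finset.univ.filter (fun x => ev σ w x = x)).card * 2 ^ m ≤ Fintype.card X) (p q : Fin N) :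
    (ntr X).n2 (sumW m (fun w => (ev A w) p q • pm (ev σ w))) ≤ Real.sqrt (2 * 128 ^ m) := by
  apply Real.le_sqrt_of_sq_le
  have hcard : (0 : ℝ) < Fintype.card X := by exact_mod_cast Fintype.card_pos
  have h3 := (ntr X).n2_sumW_le m (fun w => (ev A w) p q • pm (ev σ w))
    (fun v w => (if red w = red v then 1 else 0) + (1/2) ^ m) (by
    intro v w hv hw
    rw [star_smul, smul_mul_smul_comm, map_smul, star_pm, pm_mul, ntr_pm, norm_smul, norm_mul, norm_star]
    have a1 : ‖(ev A v) p q‖ ≤ 1 := (entry_le _ _ _).trans (norm_ev_le A hA v)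
    have a2 : ‖(ev A w) p q‖ ≤ 1 := (entry_le _ _ _).trans (norm_ev_le A hA w)
    have a3 : (ev σ v)⁻¹ * ev σ w = ev σ (v.reverse ++ w) := by
      rw [ev_append]
      congr 1
      rw [inv_eq_iff_mul_eq_one, ← ev_append]
      have : red (v ++ v.reverse) = [] := by
        have := (red_reverse_append_iff v.reverse v.reverse).mpr rfl
        rwa [List.reverse_reverse] at this
      rw [← ev_red hσ, this, ev_nil]
    have a4 : ‖((Finset.univ.filter (fun x => ((ev σ v)⁻¹ * ev σ w) x = x)).card : ℂ) / (Fintype.card X : ℂ)‖ ≤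
        (if red w = red v then 1 else 0) + (1/2) ^ m := by
      rw [norm_div, Complex.norm_natCast, Complex.norm_natCast, div_le_iff₀ hcard, a3]
      by_cases h6 : red w = red v
      · rw [if_pos h6]
        have : ((Finset.univ.filter (fun x => ev σ (v.reverse ++ w) x = x)).card : ℝ) ≤ Fintype.card X := by
          exact_mod_cast Finset.card_le_univ _
        have h7 : (0:ℝ) ≤ (1/2) ^ m := by positivity
        nlinarith
      · rw [if_neg h6, zero_add]
        have h7 := hfix (v.reverse ++ w) (by simp; omega) (fun h => h6 ((red_reverse_append_iff v w).mp h).symm)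
        have h8 : ((Finset.univ.filter (fun x => ev σ (v.reverse ++ w) x = x)).card : ℝ) * 2 ^ m ≤ Fintype.card X := by
          exact_mod_cast h7
        have h9 : ((1:ℝ)/2) ^ m * 2 ^ m = 1 := by rw [← mul_pow]; norm_num
        calc ((Finset.univ.filter (fun x => ev σ (v.reverse ++ w) x = x)).card : ℝ)
            = (1/2)^m * (((Finset.univ.filter (fun x => ev σ (v.reverse ++ w) x = x)).card : ℝ) * 2 ^ m) := by
              linear_combination (-((Finset.univ.filter (fun x => ev σ (v.reverse ++ w) x = x)).card : ℝ)) * h9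
          _ ≤ _ := by gcongr
    calc _ ≤ 1 * 1 * ((if red w = red v then 1 else 0) + (1/2) ^ m : ℝ) := by gcongr
      _ = _ := by ring)
  refine h3.trans ?_
  have h4 : sumW m (fun v => sumW m (fun w => (if red w = red v then (1:ℝ) else 0) + (1/2) ^ m)) =
      sumW m (fun v => sumW m (fun w => (if red w = red v then (1:ℝ) else 0))) + 128 ^ m := by
    simp only [sumW_add, sumW_const]
    rw [← mul_assoc, ← mul_pow, ← mul_pow]; norm_num
  rw [h4]
  linarith [pair_count_le m]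

end words

end Pool.Agent.Helper234.Nuc
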