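import Pool.Agent.Helper234.Nuc.E

set_option autoImplicit false
open scoped ComplexOrder
open scoped Matrix.Norms.L2Operator

namespace Pool.Agent.Helper234.Nuc

open Pool.Agent.Helper234.Brown (sumW sumW_map sumW_congr sumW_mono sumW_const sumW_add sumW_sum red ev
  pair_count_le red_reverse_append_iff ev_append ev_cons ev_nil ev_red ev_reverse_star)

universe u

section

variable {U : Type u} [NonUnitalCStarAlgebra U]

lemma IsMUn.norm_diag {X : Type} [DecidableEq X] {e : X → X → U} (he : IsMUn e) (p : X) : ‖e p p‖ = 1 := by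
  have h1 : ‖e p p‖ = ‖e p p‖ * ‖e p p‖ := by
    conv_lhs => rw [← he.mul_eq p p p p |>.trans (if_pos rfl)]
    rw [← CStarRing.norm_star_mul_self, he.star_eq]
  have h2 : ‖e p p‖ ≠ 0 := norm_ne_zero_iff.mpr (he.ne_zero p)
  field_simp at h1
  exact h1.symm

lemma IsMUn.norm_eq {X : Type} [DecidableEq X] {e : X → X → U} (he : IsMUn e) (p q : X) : ‖e p q‖ = 1 := by
  have h1 : ‖e p q‖ * ‖e p q‖ = 1 := by
    rw [← CStarRing.norm_star_mul_self, he.star_eq, he.mul_eq, if_pos rfl, he.norm_diag]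
  nlinarith [norm_nonneg (e p q)]

lemma norm_single_le {N : ℕ} (p q : Fin N) : ‖(Matrix.single p q (1 : ℂ) : Matrix (Fin N) (Fin N) ℂ)‖ ≤ 1 := by
  have h2 : IsStarProjection (Matrix.single q q (1 : ℂ) : Matrix (Fin N) (Fin N) ℂ) := by
    constructor
    · rw [IsIdempotentElem, Matrix.single_mul_single_same, mul_one]
    · rw [isSelfAdjoint_iff, Matrix.star_eq_conjTranspose, Matrix.conjTranspose_single, star_one]
  have h1 : ‖(Matrix.single p q (1 : ℂ) : Matrix (Fin N) (Fin N) ℂ)‖ *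
      ‖(Matrix.single p q (1 : ℂ) : Matrix (Fin N) (Fin N) ℂ)‖ ≤ 1 := by
    rw [← CStarRing.norm_star_mul_self, Matrix.star_eq_conjTranspose, Matrix.conjTranspose_single, star_one,
      Matrix.single_mul_single_same, mul_one]
    exact h2.norm_le
  nlinarith [norm_nonneg (Matrix.single p q (1 : ℂ) : Matrix (Fin N) (Fin N) ℂ)]

variable {X : Type} [Fintype X] [DecidableEq X] {N : ℕ}

lemma Phi_word (P : Pair U N) (ω : PosF U) (e : X → X → U) (x₀ : X) (z : Matrix (Fin N) (Fin N) ℂ)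
    (σ : Equiv.Perm X) : (Phi P ω e x₀).f (DD X z * PP N (pm σ)) =
    (Fintype.card X : ℂ)⁻¹ * ∑ y, ω.f (star (e (σ y) x₀) * P.ψ z * e y x₀) := by
  rw [Phi_apply]
  congr 1
  rw [Finset.sum_comm]
  refine Finset.sum_congr rfl fun y _ => ?_
  rw [Finset.sum_eq_single (σ y)]
  · rw [DD_mul_PP_apply, pm, Matrix.of_apply, if_pos rfl, one_smul]
  · intro x _ hx
    rw [DD_mul_PP_apply, pm, Matrix.of_apply, if_neg hx, zero_smul, map_zero, mul_zero, zero_mul, map_zero]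
  · simp

lemma Phi_word_close (P : Pair U N) (ω : PosF U) (e : X → X → U) (x₀ : X) (he : IsMUn e)
    (hω : ω.f (e x₀ x₀) = 1) (hω2 : ∀ a, ‖ω.f a‖ ≤ 2 * ‖a‖) (y : U) (σ : Equiv.Perm X) (hσ : σ * σ = 1)
    (hP : ‖P.ψ (P.φ y) - y‖ ≤ 1/100) (hy : ∀ a b, ‖e a b * y - e a (σ b)‖ ≤ 1/100) :
    ‖(Phi P ω e x₀).f (DD X (P.φ y) * PP N (pm σ)) - 1‖ ≤ 1/25 := by
  have hcard : (0 : ℝ) < Fintype.card X := by exact_mod_cast (Fintype.card_pos_iff.mpr ⟨x₀⟩)
  have hcard' : (Fintype.card X : ℂ) ≠ 0 := by exact_mod_cast hcard.ne'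
  rw [Phi_word]
  have h1 : (Fintype.card X : ℂ)⁻¹ * ∑ b, ω.f (star (e (σ b) x₀) * P.ψ (P.φ y) * e b x₀) - 1 =
      (Fintype.card X : ℂ)⁻¹ * ∑ b, (ω.f (star (e (σ b) x₀) * P.ψ (P.φ y) * e b x₀) - 1) := by
    rw [Finset.sum_sub_distrib, Finset.sum_const, Finset.card_univ, nsmul_eq_mul, mul_one, mul_sub,
      inv_mul_cancel₀ hcard']
  rw [h1, norm_mul, norm_inv, Complex.norm_natCast, inv_mul_le_iff₀ hcard]
  have h2 : ∀ b, ‖ω.f (star (e (σ b) x₀) * P.ψ (P.φ y) * e b x₀) - 1‖ ≤ 1/25 := by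
    intro b
    have e1 : ω.f (star (e (σ b) x₀) * P.ψ (P.φ y) * e b x₀) - 1 =
        ω.f (e x₀ (σ b) * (P.ψ (P.φ y) - y) * e b x₀ + (e x₀ (σ b) * y - e x₀ b) * e b x₀) := by
      rw [← hω, ← map_sub, he.star_eq]
      congr 1
      have e2 : e x₀ b * e b x₀ = e x₀ x₀ := by rw [he.mul_eq, if_pos rfl]
      rw [mul_sub, sub_mul, sub_mul, e2]
      abel
    rw [e1]
    refine (hω2 _).trans ?_
    have a1 : ‖e x₀ (σ b) * (P.ψ (P.φ y) - y) * e b x₀‖ ≤ 1/100 := by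
      calc _ ≤ ‖e x₀ (σ b)‖ * ‖P.ψ (P.φ y) - y‖ * ‖e b x₀‖ :=
            (norm_mul_le _ _).trans (by gcongr; exact norm_mul_le _ _)
        _ ≤ 1/100 := by rw [he.norm_eq, he.norm_eq]; linarith
    have a2 : ‖(e x₀ (σ b) * y - e x₀ b) * e b x₀‖ ≤ 1/100 := by
      have a3 := hy x₀ (σ b)
      have a4 : σ (σ b) = b := by
        rw [← Equiv.Perm.mul_apply, hσ]; rfl
      rw [a4] at a3
      calc _ ≤ ‖e x₀ (σ b) * y - e x₀ b‖ * ‖e b x₀‖ := norm_mul_le _ _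
        _ ≤ 1/100 := by rw [he.norm_eq]; linarith
    have := norm_add_le (e x₀ (σ b) * (P.ψ (P.φ y) - y) * e b x₀) ((e x₀ (σ b) * y - e x₀ b) * e b x₀)
    linarith
  refine (norm_sum_le _ _).trans ((Finset.sum_le_sum fun b _ => h2 b).trans ?_)
  rw [Finset.sum_const, Finset.card_univ, nsmul_eq_mul]

end

/-- The core non-amalgamation statement. -/
theorem core {U : Type u} [NonUnitalCStarAlgebra U] (hU : IsNuclear U) (y : Fin 16 → U)
    (hy : ∀ i, star (y i) = y i) (hyn : ∀ i, ‖y i‖ ≤ 1)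
    (hlev : ∀ m : ℕ, ∃ (X : Type) (_ : Fintype X) (_ : DecidableEq X) (_ : Nonempty X) (e : X → X → U)
      (σ : Fin 16 → Equiv.Perm X), IsMUn e ∧ (∀ i, σ i * σ i = 1) ∧
      (∀ w : List (Fin 16), w.length ≤ 2 * m → red w ≠ [] →
        (Finset.univ.filter (fun x => ev σ w x = x)).card * 2 ^ m ≤ Fintype.card X) ∧
      ∀ i a b, ‖e a b * y i - e a (σ i b)‖ ≤ 1/100) : False := by
  classical
  obtain ⟨N, P, hP⟩ := hU.exists_pair (Finset.univ.image y) (1/100) (by norm_num)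
  have hP' : ∀ i, ‖P.ψ (P.φ (y i)) - y i‖ ≤ 1/100 := fun i =>
    (hP (y i) (Finset.mem_image_of_mem y (Finset.mem_univ i))).le
  set A : Fin 16 → Matrix (Fin N) (Fin N) ℂ := fun i => P.φ (y i) with hA
  have hAs : ∀ i, star (A i) = A i := fun i => P.φ_sa _ (hy i)
  have hAn : ∀ i, ‖A i‖ ≤ 1 := fun i => (P.φ_norm _).trans (hyn i)
  obtain ⟨j, hj⟩ : ∃ j : ℕ, 2 * (N : ℝ) ^ 4 < (9/8) ^ j := pow_unbounded_of_one_lt _ (by norm_num)
  set m : ℕ := 2 ^ j with hm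
  have hjm : j ≤ m := (Nat.lt_two_pow_self).le
  obtain ⟨X, i1, i2, i3, e, σ, he, hσ, hfix, hclose⟩ := hlev m
  obtain ⟨x₀⟩ := i3
  obtain ⟨ω, hω, hω2⟩ := exists_functional hU (e x₀ x₀)
    (by rw [he.star_eq, he.mul_eq, if_pos rfl]) (he.ne_zero x₀)
  have hone : ‖(1 : Matrix (Fin N) (Fin N) ℂ)‖ ≤ 1 := norm_ev_le A hAn []
  have h1 : (Phi P ω e x₀).n2 1 ≤ 1 := by
    have := n2_DD_le P ω e x₀ he hω 1
    rw [DD_one] at this
    exact this.trans hone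
  have h2 : (12 : ℝ) ≤ ‖(Phi P ω e x₀).f (TT A σ)‖ := by
    have e1 : ‖(Phi P ω e x₀).f (TT A σ) - 16‖ ≤ 16/25 := by
      have e2 : (Phi P ω e x₀).f (TT A σ) - 16 =
          ∑ i, ((Phi P ω e x₀).f (DD X (A i) * PP N (pm (σ i))) - 1) := by
        rw [Finset.sum_sub_distrib, TT, map_sum]
        simp
      rw [e2]
      refine (norm_sum_le _ _).trans ?_
      have : ∀ i ∈ (Finset.univ : Finset (Fin 16)), ‖(Phi P ω e x₀).f (DD X (A i) * PP N (pm (σ i))) - 1‖ ≤ 1/25 :=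
        fun i _ => Phi_word_close P ω e x₀ he hω hω2 (y i) (σ i) (hσ i) (hP' i) (hclose i)
      refine (Finset.sum_le_sum this).trans ?_
      simp
      norm_num
    have e3 : ‖(16 : ℂ)‖ ≤ ‖(Phi P ω e x₀).f (TT A σ) - 16‖ + ‖(Phi P ω e x₀).f (TT A σ)‖ := by
      rw [norm_sub_rev]
      calc ‖(16 : ℂ)‖ = ‖(16 - (Phi P ω e x₀).f (TT A σ)) + (Phi P ω e x₀).f (TT A σ)‖ := by simp
        _ ≤ _ := norm_add_le _ _
    have e4 : ‖(16 : ℂ)‖ = 16 := by simp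
    rw [e4] at e3
    linarith
  have h3 := growth (Phi P ω e x₀) h1 (TT A σ) (star_TT A σ hAs hσ) 12 (by norm_num) h2 j
  rw [← hm] at h3
  have h4 : ‖(Phi P ω e x₀).f (TT A σ ^ m)‖ ≤ N ^ 2 * Real.sqrt (2 * 128 ^ m) := by
    haveI : Nonempty X := ⟨x₀⟩
    rw [TT_pow', map_sum]
    have e1 : ∀ p q : Fin N, ‖(Phi P ω e x₀).f (DD X (Matrix.single p q (1 : ℂ)) *
        PP N (sumW m (fun w => (ev A w) p q • pm (ev σ w))))‖ ≤ Real.sqrt (2 * 128 ^ m) := by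
      intro p q
      have e2 : DD X (Matrix.single p q (1 : ℂ)) = star (DD X (Matrix.single q p (1 : ℂ))) := by
        rw [star_DD, Matrix.star_eq_conjTranspose, Matrix.conjTranspose_single, star_one]
      rw [e2]
      refine ((Phi P ω e x₀).norm_le _ _).trans ?_
      have e3 : (Phi P ω e x₀).n2 (DD X (Matrix.single q p (1 : ℂ))) ≤ 1 :=
        (n2_DD_le P ω e x₀ he hω _).trans (norm_single_le q p)
      have e4 := (n2_PP_le P ω e x₀ he hω (sumW m (fun w => (ev A w) p q • pm (ev σ w)))).trans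
        (words_bound A hAn σ hσ m hfix p q)
      have e5 := (Phi P ω e x₀).n2_nonneg (DD X (Matrix.single q p (1 : ℂ)))
      have e6 := (Phi P ω e x₀).n2_nonneg (PP N (sumW m (fun w => (ev A w) p q • pm (ev σ w))))
      calc _ ≤ 1 * Real.sqrt (2 * 128 ^ m) := by gcongr
        _ = _ := one_mul _
    refine (norm_sum_le _ _).trans ?_
    have e7 : ∀ p ∈ (Finset.univ : Finset (Fin N)), ‖(Phi P ω e x₀).f (∑ q, DD X (Matrix.single p q (1 : ℂ)) *
        PP N (sumW m (fun w => (ev A w) p q • pm (ev σ w))))‖ ≤ N * Real.sqrt (2 * 128 ^ m) := by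
      intro p _
      rw [map_sum]
      refine (norm_sum_le _ _).trans ((Finset.sum_le_sum fun q _ => e1 p q).trans ?_)
      rw [Finset.sum_const, nsmul_eq_mul, Finset.card_univ, Fintype.card_fin]
    refine (Finset.sum_le_sum e7).trans ?_
    rw [Finset.sum_const, nsmul_eq_mul, Finset.card_univ, Fintype.card_fin]
    apply le_of_eq
    ring
  have h5 : (12 : ℝ) ^ m ≤ N ^ 2 * Real.sqrt (2 * 128 ^ m) := h3.trans h4
  have h6 : ((12 : ℝ) ^ m) ^ 2 ≤ 2 * N ^ 4 * 128 ^ m := by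
    have h7 : ((12 : ℝ) ^ m) ^ 2 ≤ (N ^ 2 * Real.sqrt (2 * 128 ^ m)) ^ 2 := by gcongr
    have h8 : Real.sqrt (2 * 128 ^ m) ^ 2 = 2 * 128 ^ m := Real.sq_sqrt (by positivity)
    calc _ ≤ _ := h7
      _ = N ^ 4 * (Real.sqrt (2 * 128 ^ m)) ^ 2 := by ring
      _ = _ := by rw [h8]; ring
  have h7 : (9/8 : ℝ) ^ j ≤ (9/8) ^ m := pow_le_pow_right₀ (by norm_num) hjm
  have h8 : ((12 : ℝ) ^ m) ^ 2 = (9/8) ^ m * 128 ^ m := by
    rw [← pow_mul, mul_comm m 2, pow_mul, ← mul_pow]; norm_num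
  rw [h8] at h6
  have h9 : (0 : ℝ) < 128 ^ m := by positivity
  have h10 : (9/8 : ℝ) ^ m ≤ 2 * N ^ 4 := le_of_mul_le_mul_right h6 h9
  linarith

end Pool.Agent.Helper234.Nuc
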