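import Pool.Agent.Helper234.Nuc.F

set_option autoImplicit false
open scoped ComplexOrder ENNReal
open scoped Matrix.Norms.L2Operator

namespace Pool.Agent.Helper234.Nuc

universe u v

/-- A sequence of finite sets with two cyclic actions. -/
structure Sys where
  G : ℕ → Type
  fin : ∀ n, Fintype (G n)
  dec : ∀ n, DecidableEq (G n)
  π : Bool → ∀ n, Equiv.Perm (G n)
  ord : Bool → ℕ
  ord_pos : ∀ c, 0 < ord c
  pow_ord : ∀ c n, π c n ^ ord c = 1
  pt : Bool → ∀ n, G n
  free : ∀ c n (h : ℤ), (π c n ^ h) (pt c n) = pt c n → (ord c : ℤ) ∣ h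

attribute [instance] Sys.fin Sys.dec

/-- A tree of height omega with a family of branches. -/
structure Tree (T Λ : Type u) where
  lev : T → ℕ
  node : Λ → ℕ → T
  lev_node : ∀ b n, lev (node b n) = n
  ad : ∀ b b', b ≠ b' → ∃ N, ∀ n, N ≤ n → node b n ≠ node b' n

/-- the ambient product algebra -/
abbrev Amb (S : Sys) {T : Type u} (lev : T → ℕ) : Type u :=
  lp (fun σ : T => Matrix (S.G (lev σ)) (S.G (lev σ)) ℂ) ∞

section amb

variable {S : Sys} {T : Type u} {lev : T → ℕ}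

lemma amb_mul (x y : Amb S lev) (σ : T) : (x * y) σ = x σ * y σ := rfl
lemma amb_star (x : Amb S lev) (σ : T) : (star x) σ = star (x σ) := rfl
lemma amb_add (x y : Amb S lev) (σ : T) : (x + y) σ = x σ + y σ := rfl
lemma amb_sub (x y : Amb S lev) (σ : T) : (x - y) σ = x σ - y σ := rfl
lemma amb_smul (c : ℂ) (x : Amb S lev) (σ : T) : (c • x) σ = c • x σ := rfl
lemma amb_zero (σ : T) : (0 : Amb S lev) σ = 0 := rfl
lemma amb_ext {x y : Amb S lev} (h : ∀ σ, x σ = y σ) : x = y := by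
  apply lp.ext
  funext σ
  exact h σ
lemma amb_sum {ι : Type*} (s : Finset ι) (f : ι → Amb S lev) (σ : T) :
    (∑ i ∈ s, f i) σ = ∑ i ∈ s, f i σ := by
  rw [lp.coeFn_sum, Finset.sum_apply]

/-- evaluation at a node as a star homomorphism -/
def evalHom (S : Sys) {T : Type u} (lev : T → ℕ) (σ : T) :
    Amb S lev →⋆ₙₐ[ℂ] Matrix (S.G (lev σ)) (S.G (lev σ)) ℂ where
  toFun x := x σ
  map_smul' _ _ := rfl
  map_zero' := rfl
  map_add' _ _ := rfl
  map_mul' _ _ := rfl
  map_star' _ := rfl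

lemma norm_pm_le {X : Type} [Fintype X] [DecidableEq X] (ρ : Equiv.Perm X) : ‖pm ρ‖ ≤ 1 := by
  have h1 : star (pm ρ) * pm ρ = 1 := by rw [star_pm, pm_mul, inv_mul_cancel, pm_one]
  have h2 := CStarRing.norm_star_mul_self (x := pm ρ)
  rw [h1] at h2
  have h7 := CStarRing.norm_star_mul_self (x := (1 : Matrix X X ℂ))
  rw [star_one, one_mul] at h7
  have h8 : ‖(1 : Matrix X X ℂ)‖ ≤ 1 := by nlinarith [norm_nonneg (1 : Matrix X X ℂ)]
  rw [h2] at h8
  nlinarith [norm_nonneg (pm ρ)]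

end amb

section tree

variable (S : Sys) {T Λ : Type u} (R : Tree T Λ) (t : Λ → Bool)

open Classical in
/-- the element of the package of a branch, from level `N` on -/
noncomputable def vt (N : ℕ) (b : Λ) (j : ℤ) : Amb S R.lev :=
  ⟨fun σ => if N ≤ R.lev σ ∧ R.node b (R.lev σ) = σ then pm ((S.π (t b) (R.lev σ)) ^ j) else 0, by
    apply memℓp_infty
    refine ⟨1, ?_⟩
    rintro _ ⟨σ, rfl⟩
    dsimp only
    split_ifs
    · exact norm_pm_le _
    · simp⟩

lemma vt_of {N : ℕ} {b : Λ} {σ : T} (j : ℤ) (h : N ≤ R.lev σ ∧ R.node b (R.lev σ) = σ) :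
    vt S R t N b j σ = pm ((S.π (t b) (R.lev σ)) ^ j) := by
  exact if_pos h

lemma vt_not {N : ℕ} {b : Λ} {σ : T} (j : ℤ) (h : ¬ (N ≤ R.lev σ ∧ R.node b (R.lev σ) = σ)) :
    vt S R t N b j σ = 0 := by
  exact if_neg h

lemma vt_mul (N : ℕ) (b : Λ) (i j : ℤ) : vt S R t N b i * vt S R t N b j = vt S R t N b (i + j) := by
  apply amb_ext
  intro σ
  rw [amb_mul]
  by_cases h : N ≤ R.lev σ ∧ R.node b (R.lev σ) = σ
  · rw [vt_of S R t _ h, vt_of S R t _ h, vt_of S R t _ h, pm_mul, zpow_add]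
  · rw [vt_not S R t _ h, vt_not S R t _ h, vt_not S R t _ h, zero_mul]

lemma star_vt (N : ℕ) (b : Λ) (j : ℤ) : star (vt S R t N b j) = vt S R t N b (-j) := by
  apply amb_ext
  intro σ
  rw [amb_star]
  by_cases h : N ≤ R.lev σ ∧ R.node b (R.lev σ) = σ
  · rw [vt_of S R t _ h, vt_of S R t _ h, star_pm, zpow_neg]
  · rw [vt_not S R t _ h, vt_not S R t _ h, star_zero]

lemma vt_add_ord (N : ℕ) (b : Λ) (i : ℤ) (k : ℤ) : vt S R t N b (i + S.ord (t b) * k) = vt S R t N b i := by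
  apply amb_ext
  intro σ
  by_cases h : N ≤ R.lev σ ∧ R.node b (R.lev σ) = σ
  · rw [vt_of S R t _ h, vt_of S R t _ h, zpow_add, zpow_mul, zpow_natCast, S.pow_ord, one_zpow, mul_one]
  · rw [vt_not S R t _ h, vt_not S R t _ h]

/-- finitely supported elements -/
def FS (x : Amb S R.lev) : Prop := {σ | x σ ≠ 0}.Finite

lemma FS.mul_left {x : Amb S R.lev} (h : FS S R x) (y : Amb S R.lev) : FS S R (y * x) := by
  refine Set.Finite.subset h ?_
  intro σ hσ
  simp only [Set.mem_ofPred_eq, amb_mul] at hσ ⊢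
  intro h0
  rw [h0, mul_zero] at hσ
  exact hσ rfl

lemma FS.mul_right {x : Amb S R.lev} (h : FS S R x) (y : Amb S R.lev) : FS S R (x * y) := by
  refine Set.Finite.subset h ?_
  intro σ hσ
  simp only [Set.mem_ofPred_eq, amb_mul] at hσ ⊢
  intro h0
  rw [h0, zero_mul] at hσ
  exact hσ rfl

lemma FS.star {x : Amb S R.lev} (h : FS S R x) : FS S R (star x) := by
  refine Set.Finite.subset h ?_
  intro σ hσ
  simp only [Set.mem_ofPred_eq, amb_star] at hσ ⊢
  intro h0
  rw [h0, star_zero] at hσ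
  exact hσ rfl

lemma finite_nodes (b : Λ) (N : ℕ) : {σ | R.lev σ < N ∧ R.node b (R.lev σ) = σ}.Finite := by
  refine Set.Finite.subset ((Finset.range N).finite_toSet.image (R.node b)) ?_
  rintro σ ⟨h1, h2⟩
  exact ⟨R.lev σ, by simpa using h1, h2⟩

lemma FS_vt_mul (N N' : ℕ) {b b' : Λ} (hb : b ≠ b') (j j' : ℤ) :
    FS S R (vt S R t N b j * vt S R t N' b' j') := by
  obtain ⟨M, hM⟩ := R.ad b b' hb
  refine Set.Finite.subset (finite_nodes R b M) ?_
  intro σ hσ
  simp only [Set.mem_ofPred_eq, amb_mul] at hσ ⊢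
  by_contra hcon
  apply hσ
  by_cases h : N ≤ R.lev σ ∧ R.node b (R.lev σ) = σ
  · by_cases h' : N' ≤ R.lev σ ∧ R.node b' (R.lev σ) = σ
    · exfalso
      apply hcon
      refine ⟨?_, h.2⟩
      by_contra h3
      push Not at h3
      exact hM _ h3 (h.2.trans h'.2.symm)
    · rw [vt_not S R t _ h', mul_zero]
  · rw [vt_not S R t _ h, zero_mul]

/-- the generating semigroup -/
def GS : Set (Amb S R.lev) := {x | FS S R x ∨ ∃ b j, x = vt S R t 0 b j}

lemma GS_mul {x y : Amb S R.lev} (hx : x ∈ GS S R t) (hy : y ∈ GS S R t) : x * y ∈ GS S R t := by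
  rcases hx with hx | ⟨b, j, rfl⟩
  · exact Or.inl (hx.mul_right S R y)
  · rcases hy with hy | ⟨b', j', rfl⟩
    · exact Or.inl (hy.mul_left S R _)
    · by_cases hb : b = b'
      · subst hb
        exact Or.inr ⟨b, j + j', vt_mul S R t 0 b j j'⟩
      · exact Or.inl (FS_vt_mul S R t 0 0 hb j j')

lemma GS_star {x : Amb S R.lev} (hx : x ∈ GS S R t) : star x ∈ GS S R t := by
  rcases hx with hx | ⟨b, j, rfl⟩
  · exact Or.inl (hx.star S R)
  · exact Or.inr ⟨b, -j, star_vt S R t 0 b j⟩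

/-- the test algebra -/
noncomputable def alg : NonUnitalStarSubalgebra ℂ (Amb S R.lev) :=
  (NonUnitalStarAlgebra.adjoin ℂ (GS S R t)).topologicalClosure

instance alg_closed : IsClosed (alg S R t : Set (Amb S R.lev)) := by
  unfold alg
  exact NonUnitalStarSubalgebra.isClosed_topologicalClosure _

lemma adjoin_eq : ((NonUnitalStarAlgebra.adjoin ℂ (GS S R t) : NonUnitalStarSubalgebra ℂ (Amb S R.lev)) :
    Set (Amb S R.lev)) = (Submodule.span ℂ (GS S R t) : Set (Amb S R.lev)) := by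
  have h1 := NonUnitalStarAlgebra.adjoin_eq_span (R := ℂ) (GS S R t)
  have h2 : (Subsemigroup.closure (GS S R t ∪ star (GS S R t)) : Set (Amb S R.lev)) = GS S R t := by
    apply Set.Subset.antisymm
    · let P : Subsemigroup (Amb S R.lev) := ⟨GS S R t, fun hx hy => GS_mul S R t hx hy⟩
      have h3 : Subsemigroup.closure (GS S R t ∪ star (GS S R t)) ≤ P := by
        rw [Subsemigroup.closure_le]
        rintro x (hx | hx)
        · exact hx
        · have := GS_star S R t hx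
          rwa [star_star] at this
      exact h3
    · exact Set.subset_union_left.trans Subsemigroup.subset_closure
  rw [h2] at h1
  rw [← h1]
  rfl

lemma alg_eq : (alg S R t : Set (Amb S R.lev)) = closure (Submodule.span ℂ (GS S R t) : Set (Amb S R.lev)) := by
  rw [← adjoin_eq]
  rfl

lemma GS_sub {x : Amb S R.lev} (hx : x ∈ GS S R t) : x ∈ alg S R t := by
  have : x ∈ (alg S R t : Set (Amb S R.lev)) := by
    rw [alg_eq]
    exact subset_closure (Submodule.subset_span hx)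
  exact this

lemma dense_span : Dense (Submodule.span ℂ {a : alg S R t | (a : Amb S R.lev) ∈ GS S R t} : Set (alg S R t)) := by
  rw [Subtype.dense_iff]
  intro x hx
  have h1 : x ∈ (alg S R t : Set (Amb S R.lev)) := hx
  rw [alg_eq] at h1
  refine closure_mono ?_ h1
  intro y hy
  have h2 : Submodule.span ℂ (GS S R t) ≤ (Submodule.span ℂ {a : alg S R t | (a : Amb S R.lev) ∈ GS S R t}).map
      ((alg S R t).toNonUnitalSubalgebra.toSubmodule.subtype) := by
    rw [Submodule.map_span, Submodule.span_le]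
    intro z hz
    refine Submodule.subset_span ?_
    exact ⟨⟨z, GS_sub S R t hz⟩, hz, rfl⟩
  obtain ⟨w, hw, rfl⟩ := h2 hy
  exact ⟨w, hw, rfl⟩

end tree

end Pool.Agent.Helper234.Nuc
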