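import Pool.Agent.Helper234.Nuc.G

set_option autoImplicit false
open scoped ComplexOrder ENNReal
open scoped Matrix.Norms.L2Operator

namespace Pool.Agent.Helper234.Nuc

universe u v

section

variable (S : Sys) {T Λ : Type u} (R : Tree T Λ) (t : Λ → Bool)

open Classical in
lemma single_block (σ : T) (p : S.G (R.lev σ)) (Y : Matrix (S.G (R.lev σ)) (S.G (R.lev σ)) ℂ) :
    ∑ u, ∑ v, Y u v • (star (lp.single ∞ σ (Matrix.single p u (1 : ℂ)) : Amb S R.lev) *
      (lp.single ∞ σ (Matrix.single p v (1 : ℂ)) : Amb S R.lev)) = lp.single ∞ σ Y := by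
  apply amb_ext
  intro τ
  rw [amb_sum]
  simp only [amb_sum, amb_smul, amb_mul, amb_star]
  by_cases h : τ = σ
  · subst h
    simp only [lp.single_apply_self]
    have h1 : ∀ u v : S.G (R.lev τ), Y u v • (star (Matrix.single p u (1 : ℂ)) * Matrix.single p v (1 : ℂ)) =
        Matrix.single u v (Y u v) := by
      intro u v
      rw [Matrix.star_eq_conjTranspose, Matrix.conjTranspose_single, star_one, Matrix.single_mul_single_same,
        Matrix.smul_single, mul_one, smul_eq_mul, mul_one]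
    simp only [h1]
    exact (Matrix.matrix_eq_sum_single Y).symm
  · simp only [lp.single_apply_ne (E := fun σ : T => Matrix (S.G (R.lev σ)) (S.G (R.lev σ)) ℂ) ∞ σ _ h]
    simp

/-- the number `1 / √ m` -/
noncomputable def rr (m : ℕ) : ℂ := ((Real.sqrt m)⁻¹ : ℝ)

lemma rr_mul (m : ℕ) (hm : 0 < m) : rr m * rr m * m = 1 := by
  unfold rr
  have h1 : (0 : ℝ) < m := by exact_mod_cast hm
  have h2 : (Real.sqrt m)⁻¹ * (Real.sqrt m)⁻¹ * m = 1 := by
    rw [← mul_inv, Real.mul_self_sqrt h1.le, inv_mul_cancel₀ h1.ne']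
  exact_mod_cast h2

lemma star_rr (m : ℕ) : star (rr m) = rr m := by
  unfold rr
  rw [Complex.star_def, Complex.conj_ofReal]

/-- column vectors for a branch -/
noncomputable def kb (N : ℕ) (b : Λ) (n : ℕ) (u : S.G n) : Amb S R.lev :=
  ∑ h ∈ Finset.range (S.ord (t b)), if ((S.π (t b) n) ^ (h : ℤ)) (S.pt (t b) n) = u then
    rr (S.ord (t b)) • vt S R t N b (-(h : ℤ)) else 0

lemma kb_block (N : ℕ) (b : Λ) (n : ℕ) (Y : Matrix (S.G n) (S.G n) ℂ) :
    ∑ u, ∑ v, Y u v • (star (kb S R t N b n u) * kb S R t N b n v) =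
    (rr (S.ord (t b)) * rr (S.ord (t b))) • ∑ h ∈ Finset.range (S.ord (t b)), ∑ l ∈ Finset.range (S.ord (t b)),
      Y (((S.π (t b) n) ^ (h : ℤ)) (S.pt (t b) n)) (((S.π (t b) n) ^ (l : ℤ)) (S.pt (t b) n)) •
        vt S R t N b ((h : ℤ) - l) := by
  have h1 : ∀ u v, star (kb S R t N b n u) * kb S R t N b n v =
      ∑ h ∈ Finset.range (S.ord (t b)), ∑ l ∈ Finset.range (S.ord (t b)),
        (if ((S.π (t b) n) ^ (h : ℤ)) (S.pt (t b) n) = u ∧ ((S.π (t b) n) ^ (l : ℤ)) (S.pt (t b) n) = v then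
          (rr (S.ord (t b)) * rr (S.ord (t b))) • vt S R t N b ((h : ℤ) - l) else 0) := by
    intro u v
    unfold kb
    rw [star_sum, Finset.sum_mul]
    refine Finset.sum_congr rfl fun h _ => ?_
    rw [Finset.mul_sum]
    refine Finset.sum_congr rfl fun l _ => ?_
    by_cases hu : ((S.π (t b) n) ^ (h : ℤ)) (S.pt (t b) n) = u
    · by_cases hv : ((S.π (t b) n) ^ (l : ℤ)) (S.pt (t b) n) = v
      · rw [if_pos hu, if_pos hv, if_pos ⟨hu, hv⟩, star_smul, star_rr, star_vt, smul_mul_smul_comm, vt_mul, neg_neg]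
        rfl
      · rw [if_neg hv, mul_zero, if_neg (fun h' => hv h'.2)]
    · rw [if_neg hu, star_zero, zero_mul, if_neg (fun h' => hu h'.1)]
  simp only [h1]
  rw [Finset.smul_sum]
  have h2 : ∀ u v, Y u v • (∑ h ∈ Finset.range (S.ord (t b)), ∑ l ∈ Finset.range (S.ord (t b)),
        (if ((S.π (t b) n) ^ (h : ℤ)) (S.pt (t b) n) = u ∧ ((S.π (t b) n) ^ (l : ℤ)) (S.pt (t b) n) = v then
          (rr (S.ord (t b)) * rr (S.ord (t b))) • vt S R t N b ((h : ℤ) - l) else 0)) =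
      ∑ h ∈ Finset.range (S.ord (t b)), ∑ l ∈ Finset.range (S.ord (t b)),
        (if ((S.π (t b) n) ^ (h : ℤ)) (S.pt (t b) n) = u ∧ ((S.π (t b) n) ^ (l : ℤ)) (S.pt (t b) n) = v then
          Y u v • (rr (S.ord (t b)) * rr (S.ord (t b))) • vt S R t N b ((h : ℤ) - l) else 0) := by
    intro u v
    rw [Finset.smul_sum]
    refine Finset.sum_congr rfl fun h _ => ?_
    rw [Finset.smul_sum]
    refine Finset.sum_congr rfl fun l _ => ?_
    split_ifs
    · rfl
    · rw [smul_zero]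
  simp only [h2]
  have h3 : ∀ u : S.G n, ∑ v : S.G n, ∑ h ∈ Finset.range (S.ord (t b)), ∑ l ∈ Finset.range (S.ord (t b)),
        (if ((S.π (t b) n) ^ (h : ℤ)) (S.pt (t b) n) = u ∧ ((S.π (t b) n) ^ (l : ℤ)) (S.pt (t b) n) = v then
          Y u v • (rr (S.ord (t b)) * rr (S.ord (t b))) • vt S R t N b ((h : ℤ) - l) else 0) =
      ∑ h ∈ Finset.range (S.ord (t b)), ∑ l ∈ Finset.range (S.ord (t b)), ∑ v : S.G n,
        (if ((S.π (t b) n) ^ (h : ℤ)) (S.pt (t b) n) = u ∧ ((S.π (t b) n) ^ (l : ℤ)) (S.pt (t b) n) = v then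
          Y u v • (rr (S.ord (t b)) * rr (S.ord (t b))) • vt S R t N b ((h : ℤ) - l) else 0) := by
    intro u
    rw [Finset.sum_comm]
    refine Finset.sum_congr rfl fun h _ => ?_
    rw [Finset.sum_comm]
  simp only [h3]
  rw [Finset.sum_comm]
  refine Finset.sum_congr rfl fun h _ => ?_
  rw [Finset.sum_comm, Finset.smul_sum]
  refine Finset.sum_congr rfl fun l _ => ?_
  rw [Finset.sum_eq_single (((S.π (t b) n) ^ (h : ℤ)) (S.pt (t b) n))]
  · rw [Finset.sum_eq_single (((S.π (t b) n) ^ (l : ℤ)) (S.pt (t b) n))]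
    · rw [if_pos ⟨rfl, rfl⟩, smul_comm]
    · intro v _ hv
      rw [if_neg (fun h => hv h.2.symm)]
    · simp
  · intro u _ hu
    refine Finset.sum_eq_zero fun v _ => ?_
    rw [if_neg (fun h => hu h.1.symm)]
  · simp

lemma kb_pm (N : ℕ) (b : Λ) (n : ℕ) (j : ℤ) :
    ∑ u, ∑ v, (pm ((S.π (t b) n) ^ j) : Matrix (S.G n) (S.G n) ℂ) u v •
      (star (kb S R t N b n u) * kb S R t N b n v) = vt S R t N b j := by
  rw [kb_block]
  set m := S.ord (t b) with hm
  have hmpos : 0 < m := S.ord_pos _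
  have key : ∀ l ∈ Finset.range m, ∑ h ∈ Finset.range m,
      (pm ((S.π (t b) n) ^ j) : Matrix (S.G n) (S.G n) ℂ) (((S.π (t b) n) ^ (h : ℤ)) (S.pt (t b) n))
        (((S.π (t b) n) ^ (l : ℤ)) (S.pt (t b) n)) • vt S R t N b ((h : ℤ) - l) = vt S R t N b j := by
    intro l _
    have hmz : (m : ℤ) ≠ 0 := by exact_mod_cast hmpos.ne'
    have h0 : 0 ≤ (j + l) % (m : ℤ) := Int.emod_nonneg _ hmz
    have h1 : (j + l) % (m : ℤ) < m := Int.emod_lt_of_pos _ (by exact_mod_cast hmpos)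
    set h' : ℕ := ((j + l) % (m : ℤ)).toNat with hh'
    have h2 : (h' : ℤ) = (j + l) % (m : ℤ) := Int.toNat_of_nonneg h0
    have h3 : (h' : ℤ) + m * ((j + l) / m) = j + l := by rw [h2]; exact Int.emod_add_mul_ediv _ _
    have hπ : ∀ k : ℤ, (S.π (t b) n) ^ ((m : ℤ) * k) = 1 := by
      intro k
      rw [zpow_mul, zpow_natCast, hm, S.pow_ord, one_zpow]
    rw [Finset.sum_eq_single h']
    · have h4 : ((S.π (t b) n) ^ (h' : ℤ)) (S.pt (t b) n) =
          ((S.π (t b) n) ^ j) (((S.π (t b) n) ^ (l : ℤ)) (S.pt (t b) n)) := by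
        rw [← Equiv.Perm.mul_apply, ← zpow_add, ← h3, zpow_add, hπ, mul_one]
      rw [pm, Matrix.of_apply, if_pos h4, one_smul]
      have h5 : (h' : ℤ) - l = j + m * (-((j + l) / m)) := by linarith
      rw [h5, hm, vt_add_ord]
    · intro h hh hne
      rw [pm, Matrix.of_apply, if_neg, zero_smul]
      intro h4
      apply hne
      have h5 : ((S.π (t b) n) ^ ((h : ℤ) - (j + l))) (S.pt (t b) n) = S.pt (t b) n := by
        have h6 : (h : ℤ) - (j + l) = -(j + l) + h := by ring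
        rw [h6, zpow_add, Equiv.Perm.mul_apply, h4, ← Equiv.Perm.mul_apply ((S.π (t b) n) ^ j), ← zpow_add,
          ← Equiv.Perm.mul_apply, ← zpow_add, neg_add_cancel, zpow_zero]
        rfl
      have h6 := S.free _ _ _ h5
      rw [← hm] at h6
      have h7 : (h : ℤ) % m = (j + l) % m := (Int.modEq_iff_dvd.mpr h6).symm
      have h8 : (h : ℤ) % m = h := Int.emod_eq_of_lt (by positivity) (by
        have := Finset.mem_range.mp hh
        exact_mod_cast this)
      have h9 : (h : ℤ) = h' := by rw [h2, ← h7, h8]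
      exact_mod_cast h9
    · intro h
      exfalso
      apply h
      rw [Finset.mem_range]
      have : (h' : ℤ) < m := by rw [h2]; exact h1
      exact_mod_cast this
  rw [Finset.sum_comm, Finset.sum_congr rfl key, Finset.sum_const, Finset.card_range, ← Nat.cast_smul_eq_nsmul ℂ,
    smul_smul, rr_mul m hmpos, one_smul]

end

end Pool.Agent.Helper234.Nuc
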