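import Pool.Agent.Helper234.Nuc.H

set_option autoImplicit false
open scoped ComplexOrder ENNReal
open scoped Matrix.Norms.L2Operator

namespace Pool.Agent.Helper234.Nuc

universe u v

section

variable (S : Sys) {T Λ : Type u} (R : Tree T Λ) (t : Λ → Bool)

lemma FS_single [DecidableEq T] (σ : T) (Y : Matrix (S.G (R.lev σ)) (S.G (R.lev σ)) ℂ) :
    FS S R (lp.single ∞ σ Y) := by
  refine Set.Finite.subset (Set.finite_singleton σ) ?_
  intro τ hτ
  by_contra h
  apply hτ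
  exact lp.single_apply_ne (E := fun σ : T => Matrix (S.G (R.lev σ)) (S.G (R.lev σ)) ℂ) ∞ σ _ h

lemma FS_diff (N : ℕ) (b : Λ) (j : ℤ) : FS S R (vt S R t 0 b j - vt S R t N b j) := by
  refine Set.Finite.subset (finite_nodes R b N) ?_
  intro σ hσ
  simp only [Set.mem_ofPred_eq, amb_sub] at hσ ⊢
  by_contra hcon
  apply hσ
  by_cases h : R.node b (R.lev σ) = σ
  · have h1 : N ≤ R.lev σ := by
      by_contra h2
      push Not at h2
      exact hcon ⟨h2, h⟩
    rw [vt_of S R t j ⟨Nat.zero_le _, h⟩, vt_of S R t j ⟨h1, h⟩, sub_self]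
  · rw [vt_not S R t j (fun h' => h h'.2), vt_not S R t j (fun h' => h h'.2), sub_self]

lemma vt_mem (N : ℕ) (b : Λ) (j : ℤ) : vt S R t N b j ∈ alg S R t := by
  have h1 : vt S R t N b j = vt S R t 0 b j - (vt S R t 0 b j - vt S R t N b j) := by abel
  rw [h1]
  exact sub_mem (GS_sub S R t (Or.inr ⟨b, j, rfl⟩)) (GS_sub S R t (Or.inl (FS_diff S R t N b j)))

lemma kb_mem (N : ℕ) (b : Λ) (n : ℕ) (u : S.G n) : kb S R t N b n u ∈ alg S R t := by
  refine sum_mem fun h _ => ?_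
  split_ifs
  · exact SMulMemClass.smul_mem _ (vt_mem S R t N b _)
  · exact zero_mem _

/-- choosing the finite data -/
lemma exists_data (F : Finset (alg S R t)) (hF : (F : Set (alg S R t)) ⊆ {a | (a : Amb S R.lev) ∈ GS S R t}) :
    ∃ (s : Finset T) (Λ₀ : Finset Λ) (N : ℕ), (∀ σ ∈ s, R.lev σ < N) ∧
      (∀ b ∈ Λ₀, ∀ σ, R.lev σ < N → R.node b (R.lev σ) = σ → σ ∈ s) ∧
      (∀ b ∈ Λ₀, ∀ b' ∈ Λ₀, b ≠ b' → ∀ n, N ≤ n → R.node b n ≠ R.node b' n) ∧
      (∀ a ∈ F, (∀ σ, σ ∉ s → (a : Amb S R.lev) σ = 0) ∨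
        ∃ b ∈ Λ₀, ∃ j, (a : Amb S R.lev) = vt S R t 0 b j) := by
  classical
  let f : alg S R t → Finset Λ := fun a => if h : ∃ b j, (a : Amb S R.lev) = vt S R t 0 b j then {h.choose} else ∅
  let g : alg S R t → Finset T := fun a => if h : FS S R (a : Amb S R.lev) then h.toFinset else ∅
  let Λ₀ := F.biUnion f
  let s₀ := F.biUnion g
  have h1 : ∀ b b' : Λ, ∃ N, b ≠ b' → ∀ n, N ≤ n → R.node b n ≠ R.node b' n := by
    intro b b'
    by_cases h : b = b'
    · exact ⟨0, fun h' => absurd h h'⟩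
    · obtain ⟨N, hN⟩ := R.ad b b' h
      exact ⟨N, fun _ => hN⟩
  choose M hM using h1
  let N : ℕ := (s₀.sup R.lev + 1) + (Λ₀ ×ˢ Λ₀).sup (fun p => M p.1 p.2)
  let s : Finset T := s₀ ∪ Λ₀.biUnion (fun b => (Finset.range N).image (R.node b))
  refine ⟨s, Λ₀, N, ?_, ?_, ?_, ?_⟩
  · intro σ hσ
    rcases Finset.mem_union.mp hσ with h | h
    · have := Finset.le_sup (f := R.lev) h
      omega
    · rw [Finset.mem_biUnion] at h
      obtain ⟨b, _, h⟩ := h
      rw [Finset.mem_image] at h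
      obtain ⟨n, hn, rfl⟩ := h
      rw [R.lev_node]
      exact Finset.mem_range.mp hn
  · intro b hb σ hσ h
    refine Finset.mem_union_right _ ?_
    rw [Finset.mem_biUnion]
    refine ⟨b, hb, ?_⟩
    rw [Finset.mem_image]
    exact ⟨R.lev σ, Finset.mem_range.mpr hσ, h⟩
  · intro b hb b' hb' hne n hn
    apply hM b b' hne
    have := Finset.le_sup (f := fun p : Λ × Λ => M p.1 p.2) (Finset.mk_mem_product hb hb')
    have h2 : M b b' ≤ (Λ₀ ×ˢ Λ₀).sup (fun p => M p.1 p.2) := this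
    omega
  · intro a ha
    rcases hF ha with h | h
    · left
      intro σ hσ
      by_contra hne
      apply hσ
      refine Finset.mem_union_left _ ?_
      rw [Finset.mem_biUnion]
      refine ⟨a, ha, ?_⟩
      have : g a = h.toFinset := dif_pos h
      rw [this]
      exact (Set.Finite.mem_toFinset h).mpr hne
    · right
      have h3 : f a = {h.choose} := dif_pos h
      refine ⟨h.choose, ?_, h.choose_spec⟩
      rw [Finset.mem_biUnion]
      exact ⟨a, ha, by rw [h3]; exact Finset.mem_singleton_self _⟩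

end

section main

variable (S : Sys) {T Λ : Type u} (R : Tree T Λ) (t : Λ → Bool)

/-- the test algebra as a type -/
def AlgT : Type u := ↥(alg S R t)

noncomputable instance : NonUnitalCStarAlgebra (AlgT S R t) :=
  inferInstanceAs (NonUnitalCStarAlgebra ↥(alg S R t))

/-- the inclusion -/
noncomputable def toAmb : AlgT S R t →⋆ₙₐ[ℂ] Amb S R.lev :=
  NonUnitalStarSubalgebraClass.subtype (alg S R t)

/-- constructor -/
def mkA (x : Amb S R.lev) (hx : x ∈ alg S R t) : AlgT S R t := ⟨x, hx⟩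

lemma toAmb_mkA (x : Amb S R.lev) (hx : x ∈ alg S R t) : toAmb S R t (mkA S R t x hx) = x := rfl

lemma toAmb_inj : Function.Injective (toAmb S R t) := Subtype.val_injective

lemma norm_toAmb (a : AlgT S R t) : ‖toAmb S R t a‖ = ‖a‖ := rfl

/-- the node of a block -/
def nd {s : Finset T} {Λ₀ : Finset Λ} (N : ℕ) : (↥s ⊕ ↥Λ₀) → T
  | Sum.inl σ => σ.1
  | Sum.inr b => R.node b.1 N

open Classical in
/-- the columns of the block -/
noncomputable def kap {s : Finset T} {Λ₀ : Finset Λ} (N : ℕ) :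
    ∀ j : (↥s ⊕ ↥Λ₀), S.G (R.lev (nd R N j)) → AlgT S R t
  | Sum.inl σ => fun u => mkA S R t (lp.single ∞ σ.1 (Matrix.single (S.pt true _) u (1 : ℂ)))
      (GS_sub S R t (Or.inl (FS_single S R _ _)))
  | Sum.inr b => fun u => mkA S R t (kb S R t N b.1 _ u) (kb_mem S R t N b.1 _ u)

open Classical in
lemma block_inl {s : Finset T} {Λ₀ : Finset Λ} (N : ℕ) (σ : ↥s)
    (Y : Matrix (S.G (R.lev σ.1)) (S.G (R.lev σ.1)) ℂ) :
    toAmb S R t (∑ u, ∑ v, Y u v • (star (kap S R t N (Sum.inl σ : ↥s ⊕ ↥Λ₀) u) *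
      kap S R t N (Sum.inl σ : ↥s ⊕ ↥Λ₀) v)) = lp.single ∞ σ.1 Y := by
  rw [← single_block S R σ.1 (S.pt true _) Y, map_sum]
  refine Finset.sum_congr rfl fun u _ => ?_
  rw [map_sum]
  refine Finset.sum_congr rfl fun v _ => ?_
  rw [map_smul, map_mul, map_star]
  rfl

lemma block_inr {s : Finset T} {Λ₀ : Finset Λ} (N : ℕ) (b : ↥Λ₀) (j : ℤ) :
    toAmb S R t (∑ u, ∑ v, (pm ((S.π (t b.1) (R.lev (R.node b.1 N))) ^ j) : Matrix _ _ ℂ) u v •
      (star (kap S R t N (Sum.inr b : ↥s ⊕ ↥Λ₀) u) * kap S R t N (Sum.inr b : ↥s ⊕ ↥Λ₀) v)) =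
      vt S R t N b.1 j := by
  rw [← kb_pm S R t N b.1 (R.lev (R.node b.1 N)) j, map_sum]
  refine Finset.sum_congr rfl fun u _ => ?_
  rw [map_sum]
  refine Finset.sum_congr rfl fun v _ => ?_
  rw [map_smul, map_mul, map_star]
  rfl

lemma dense_span' : Dense (Submodule.span ℂ {a : AlgT S R t | toAmb S R t a ∈ GS S R t} : Set (AlgT S R t)) :=
  dense_span S R t

end main

end Pool.Agent.Helper234.Nuc
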