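import Pool.Agent.Helper234.Nuc.K

set_option autoImplicit false
open scoped ComplexOrder ENNReal
open scoped Matrix.Norms.L2Operator

namespace Pool.Agent.Helper234.Nuc

universe u v

section main

variable (S : Sys) {T Λ : Type u} (R : Tree T Λ) (t : Λ → Bool)

open Classical in
lemma sum_single_coord (s : Finset T) (g : ∀ σ : T, Matrix (S.G (R.lev σ)) (S.G (R.lev σ)) ℂ) (τ : T) :
    (∑ σ : ↥s, (lp.single ∞ σ.1 (g σ.1) : Amb S R.lev)) τ = if τ ∈ s then g τ else 0 := by
  rw [amb_sum]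
  split_ifs with h
  · rw [Finset.sum_eq_single (⟨τ, h⟩ : ↥s)]
    · exact lp.single_apply_self (E := fun σ : T => Matrix (S.G (R.lev σ)) (S.G (R.lev σ)) ℂ) ∞ τ (g τ)
    · intro σ _ hσ
      refine lp.single_apply_ne (E := fun σ : T => Matrix (S.G (R.lev σ)) (S.G (R.lev σ)) ℂ) ∞ σ.1 _ ?_
      intro h'
      apply hσ
      exact Subtype.ext h'.symm
    · simp
  · refine Finset.sum_eq_zero fun σ _ => ?_
    refine lp.single_apply_ne (E := fun σ : T => Matrix (S.G (R.lev σ)) (S.G (R.lev σ)) ℂ) ∞ σ.1 _ ?_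
    intro h'
    apply h
    rw [h']; exact σ.2

lemma norm_one_matrix_le {X : Type} [Fintype X] [DecidableEq X] : ‖(1 : Matrix X X ℂ)‖ ≤ 1 := by
  have h7 := CStarRing.norm_star_mul_self (x := (1 : Matrix X X ℂ))
  rw [star_one, one_mul] at h7
  nlinarith [norm_nonneg (1 : Matrix X X ℂ)]

open Classical in
lemma unit_bound (s : Finset T) (Λ₀ : Finset Λ) (N : ℕ) (h1 : ∀ σ ∈ s, R.lev σ < N)
    (h3 : ∀ b ∈ Λ₀, ∀ b' ∈ Λ₀, b ≠ b' → ∀ n, N ≤ n → R.node b n ≠ R.node b' n) (x : Amb S R.lev)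
    (hx : ∀ τ, x τ = (if τ ∈ s then (1 : Matrix (S.G (R.lev τ)) (S.G (R.lev τ)) ℂ) else 0) +
      ∑ b : ↥Λ₀, vt S R t N b.1 0 τ) : ‖x‖ ≤ 1 := by
  refine lp.norm_le_of_forall_le (by norm_num) (fun τ => ?_)
  rw [hx τ]
  by_cases hτ : R.lev τ < N
  · have e1 : ∑ b : ↥Λ₀, vt S R t N b.1 0 τ = 0 := by
      refine Finset.sum_eq_zero fun b _ => ?_
      exact vt_not S R t 0 (fun h => by omega)
    rw [e1, add_zero]
    split_ifs
    · exact norm_one_matrix_le
    · simp
  · have e1 : τ ∉ s := fun h => hτ (h1 τ h)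
    rw [if_neg e1, zero_add]
    by_cases hb : ∃ b : ↥Λ₀, R.node b.1 (R.lev τ) = τ
    · obtain ⟨b, hb⟩ := hb
      rw [Finset.sum_eq_single b]
      · rw [vt_of S R t 0 ⟨by omega, hb⟩]
        exact norm_pm_le _
      · intro b' _ hb'
        refine vt_not S R t 0 (fun h => ?_)
        have h5 : b'.1 ≠ b.1 := fun h6 => hb' (Subtype.ext h6)
        exact h3 b'.1 b'.2 b.1 b.2 h5 _ h.1 (h.2.trans hb.symm)
      · simp
    · have e2 : ∑ b : ↥Λ₀, vt S R t N b.1 0 τ = 0 := by
        refine Finset.sum_eq_zero fun b _ => ?_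
        exact vt_not S R t 0 (fun h => hb ⟨b, h.2⟩)
      rw [e2]; simp

lemma one_eq_pm {X : Type} [Fintype X] [DecidableEq X] (ρ : Equiv.Perm X) : (1 : Matrix X X ℂ) = pm (ρ ^ (0 : ℤ)) := by
  rw [zpow_zero, pm_one]

lemma sum_diag {A : Type v} [NonUnitalCStarAlgebra A] {X : Type} [Fintype X] [DecidableEq X] (κ : X → A) :
    ∑ u, star (κ u) * κ u = ∑ u, ∑ v, (1 : Matrix X X ℂ) u v • (star (κ u) * κ v) := by
  refine Finset.sum_congr rfl fun u _ => ?_
  rw [Finset.sum_eq_single u]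
  · simp
  · intro v _ hv
    rw [Matrix.one_apply_ne (Ne.symm hv), zero_smul]
  · simp

theorem alg_nuclear : IsNuclear (AlgT S R t) := by
  classical
  refine isNuclear_of_blocks {a | toAmb S R t a ∈ GS S R t} (dense_span' S R t) (fun F hF => ?_)
  obtain ⟨s, Λ₀, N, h1, h2, h3, h4⟩ := exists_data S R t F hF
  refine ⟨↥s ⊕ ↥Λ₀, inferInstance, inferInstance, fun j => S.G (R.lev (nd R N j)), inferInstance, inferInstance,
    fun j => (evalHom S R.lev (nd R N j)).comp (toAmb S R t), kap S R t N, ?_, ?_⟩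
  · rw [← norm_toAmb, map_sum, Fintype.sum_sum_type]
    refine unit_bound S R t s Λ₀ N h1 h3 _ (fun τ => ?_)
    rw [amb_add]
    congr 1
    · rw [← sum_single_coord S R s (fun σ => 1) τ]
      refine congrArg (fun z : Amb S R.lev => z τ) ?_
      refine Finset.sum_congr rfl fun σ _ => ?_
      rw [← block_inl S R t (Λ₀ := Λ₀) N σ 1, sum_diag]
      rfl
    · rw [← amb_sum]
      refine congrArg (fun z : Amb S R.lev => z τ) ?_
      refine Finset.sum_congr rfl fun b _ => ?_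
      rw [← block_inr S R t (s := s) N b 0, sum_diag, ← one_eq_pm]
      rfl
  · intro g hg
    apply toAmb_inj S R t
    apply amb_ext
    intro τ
    rw [map_sum, Fintype.sum_sum_type, amb_add]
    have e1 : (∑ σ : ↥s, toAmb S R t (∑ u, ∑ v,
        ((evalHom S R.lev (nd R N (Sum.inl σ : ↥s ⊕ ↥Λ₀))).comp (toAmb S R t)) g u v •
        (star (kap S R t N (Sum.inl σ : ↥s ⊕ ↥Λ₀) u) * kap S R t N (Sum.inl σ : ↥s ⊕ ↥Λ₀) v))) τ =
        if τ ∈ s then toAmb S R t g τ else 0 := by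
      rw [← sum_single_coord S R s (fun σ => toAmb S R t g σ) τ]
      refine congrArg (fun z : Amb S R.lev => z τ) ?_
      refine Finset.sum_congr rfl fun σ _ => ?_
      exact block_inl S R t (Λ₀ := Λ₀) N σ (toAmb S R t g σ.1)
    rw [e1]
    rcases h4 g hg with h5 | ⟨b', hb', j, h5⟩
    · have e2 : (∑ b : ↥Λ₀, toAmb S R t (∑ u, ∑ v,
          ((evalHom S R.lev (nd R N (Sum.inr b : ↥s ⊕ ↥Λ₀))).comp (toAmb S R t)) g u v •
          (star (kap S R t N (Sum.inr b : ↥s ⊕ ↥Λ₀) u) * kap S R t N (Sum.inr b : ↥s ⊕ ↥Λ₀) v))) τ = 0 := by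
        rw [amb_sum]
        refine Finset.sum_eq_zero fun b _ => ?_
        have e3 : ((evalHom S R.lev (nd R N (Sum.inr b : ↥s ⊕ ↥Λ₀))).comp (toAmb S R t)) g = 0 := by
          refine h5 _ (fun h6 => ?_)
          have := h1 _ h6
          have h7 : R.lev (nd R N (Sum.inr b : ↥s ⊕ ↥Λ₀)) = N := R.lev_node b.1 N
          omega
        rw [e3]
        simp [amb_zero]
      rw [e2, add_zero]
      split_ifs with h6
      · rfl
      · exact (h5 τ h6).symm
    · have e2 : (∑ b : ↥Λ₀, toAmb S R t (∑ u, ∑ v,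
          ((evalHom S R.lev (nd R N (Sum.inr b : ↥s ⊕ ↥Λ₀))).comp (toAmb S R t)) g u v •
          (star (kap S R t N (Sum.inr b : ↥s ⊕ ↥Λ₀) u) * kap S R t N (Sum.inr b : ↥s ⊕ ↥Λ₀) v))) τ =
          vt S R t N b' j τ := by
        rw [amb_sum, Finset.sum_eq_single (⟨b', hb'⟩ : ↥Λ₀)]
        · have e3 : ((evalHom S R.lev (nd R N (Sum.inr ⟨b', hb'⟩ : ↥s ⊕ ↥Λ₀))).comp (toAmb S R t)) g =
              pm ((S.π (t b') (R.lev (R.node b' N))) ^ j) := by
            show toAmb S R t g (R.node b' N) = _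
            have h6 : toAmb S R t g = vt S R t 0 b' j := h5
            rw [h6]
            exact vt_of S R t j ⟨Nat.zero_le _, by rw [R.lev_node]⟩
          rw [e3]
          rw [← block_inr S R t (s := s) N (⟨b', hb'⟩ : ↥Λ₀) j]
          rfl
        · intro b _ hb
          have e3 : ((evalHom S R.lev (nd R N (Sum.inr b : ↥s ⊕ ↥Λ₀))).comp (toAmb S R t)) g = 0 := by
            show toAmb S R t g (R.node b.1 N) = _
            have h6 : toAmb S R t g = vt S R t 0 b' j := h5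
            rw [h6]
            refine vt_not S R t j (fun h7 => ?_)
            have h8 := h7.2
            rw [R.lev_node] at h8
            have h9 : b' ≠ b.1 := fun h => hb (Subtype.ext h.symm)
            exact h3 b' hb' b.1 b.2 h9 N le_rfl h8
          rw [e3]
          simp [amb_zero]
        · simp
      rw [e2]
      have h6 : toAmb S R t g = vt S R t 0 b' j := h5
      rw [h6]
      by_cases h7 : R.node b' (R.lev τ) = τ
      · by_cases h8 : R.lev τ < N
        · rw [if_pos (h2 b' hb' τ h8 h7), vt_not S R t j (N := N) (fun h => by omega), add_zero]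
        · rw [if_neg (fun h => h8 (h1 τ h)), zero_add, vt_of S R t j ⟨by omega, h7⟩,
            vt_of S R t j ⟨Nat.zero_le _, h7⟩]
      · rw [vt_not S R t j (fun h => h7 h.2), vt_not S R t j (fun h => h7 h.2)]
        simp

end main

end Pool.Agent.Helper234.Nuc
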