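import Pool.Agent.Helper234.Nuc.L

set_option autoImplicit false
open scoped ComplexOrder ENNReal
open scoped Matrix.Norms.L2Operator

namespace Pool.Agent.Helper234.Nuc

universe u v

section card

open Cardinal

/-- the rational combination coded by a list -/
noncomputable def lsum {A : Type u} [AddCommMonoid A] [Module ℂ A] {I : Type v} (gen : I → A)
    (l : List ((ℚ × ℚ) × I)) : A :=
  (l.map (fun p => (((p.1.1 : ℝ) : ℂ) + ((p.1.2 : ℝ) : ℂ) * Complex.I) • gen p.2)).sum

lemma lsum_append {A : Type u} [AddCommMonoid A] [Module ℂ A] {I : Type v} (gen : I → A)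
    (l l' : List ((ℚ × ℚ) × I)) : lsum gen (l ++ l') = lsum gen l + lsum gen l' := by
  simp [lsum]

lemma exists_dense_card {A : Type u} [NormedAddCommGroup A] [NormedSpace ℂ A] {I : Type u} (gen : I → A)
    (hd : Dense (Submodule.span ℂ (Set.range gen) : Set A)) (κ : Cardinal.{u}) (hκ : ℵ₀ ≤ κ) (hI : #I ≤ κ) :
    ∃ D : Set A, Dense D ∧ #D ≤ κ := by
  refine ⟨Set.range (lsum gen), ?_, ?_⟩
  · have hadd : ∀ x ∈ closure (Set.range (lsum gen)), ∀ y ∈ closure (Set.range (lsum gen)),
        x + y ∈ closure (Set.range (lsum gen)) := by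
      intro x hx y hy
      refine map_mem_closure₂ continuous_add hx hy ?_
      rintro _ ⟨l, rfl⟩ _ ⟨l', rfl⟩
      exact ⟨l ++ l', lsum_append gen l l'⟩
    have hsmul : ∀ (c : ℂ) (i : I), c • gen i ∈ closure (Set.range (lsum gen)) := by
      intro c i
      have h1 : DenseRange (fun q : ℚ × ℚ => ((q.1 : ℝ) : ℂ) + ((q.2 : ℝ) : ℂ) * Complex.I) := by
        have h2 : DenseRange (fun q : ℚ × ℚ => (((q.1 : ℝ), (q.2 : ℝ)) : ℝ × ℝ)) :=
          Rat.denseRange_cast.prodMap Rat.denseRange_cast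
        have h3 : Function.Surjective (fun p : ℝ × ℝ => (p.1 : ℂ) + (p.2 : ℂ) * Complex.I) :=
          fun z => ⟨(z.re, z.im), Complex.re_add_im z⟩
        exact h3.denseRange.comp h2 (by fun_prop)
      have h4 : c ∈ closure (Set.range (fun q : ℚ × ℚ => ((q.1 : ℝ) : ℂ) + ((q.2 : ℝ) : ℂ) * Complex.I)) := h1 c
      refine map_mem_closure (f := fun z : ℂ => z • gen i) (by fun_prop) h4 ?_
      rintro _ ⟨q, rfl⟩
      exact ⟨[(q, i)], by simp [lsum]⟩
    have hzero : (0 : A) ∈ closure (Set.range (lsum gen)) := subset_closure ⟨[], rfl⟩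
    have h5 : (Submodule.span ℂ (Set.range gen) : Set A) ⊆ closure (Set.range (lsum gen)) := by
      intro x hx
      obtain ⟨c, rfl⟩ := Finsupp.mem_span_range_iff_exists_finsupp.mp hx
      unfold Finsupp.sum
      generalize c.support = s
      induction s using Finset.cons_induction with
      | empty => simpa using hzero
      | cons a s ha ih =>
        rw [Finset.sum_cons]
        exact hadd _ (hsmul _ _) _ ih
    intro x
    have := closure_mono h5 (hd x)
    rwa [closure_closure] at this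
  · refine (Cardinal.mk_range_le).trans ?_
    refine (Cardinal.mk_list_le_max _).trans (max_le hκ ?_)
    rw [Cardinal.mk_prod]
    refine Cardinal.mul_le_of_le hκ ?_ ?_
    · refine le_trans ?_ hκ
      rw [Cardinal.lift_le_aleph0]
      exact Cardinal.mk_le_aleph0
    · rwa [Cardinal.lift_id']

end card

section main

open Cardinal

variable (S : Sys) {T Λ : Type u} (R : Tree T Λ) (t : Λ → Bool)

/-- index type of the generators -/
abbrev GI (T Λ : Type u) (R : Tree T Λ) : Type u := (Σ σ : T, S.G (R.lev σ) × S.G (R.lev σ)) ⊕ (Λ × ℤ)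

open Classical in
/-- matrix unit of a block -/
noncomputable def mu (σ : T) (a b : S.G (R.lev σ)) : AlgT S R t :=
  mkA S R t (lp.single ∞ σ (Matrix.single a b (1 : ℂ))) (GS_sub S R t (Or.inl (FS_single S R _ _)))

/-- package element of a branch -/
noncomputable def pk (b : Λ) (j : ℤ) : AlgT S R t :=
  mkA S R t (vt S R t 0 b j) (GS_sub S R t (Or.inr ⟨b, j, rfl⟩))

/-- generators -/
noncomputable def gen : GI S T Λ R → AlgT S R t
  | Sum.inl p => mu S R t p.1 p.2.1 p.2.2
  | Sum.inr p => pk S R t p.1 p.2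

open Classical in
lemma FS_eq_sum (x : Amb S R.lev) (hx : FS S R x) :
    x = ∑ σ ∈ hx.toFinset, ∑ u, ∑ v, (x σ u v) • (lp.single ∞ σ (Matrix.single u v (1 : ℂ)) : Amb S R.lev) := by
  have h0 : ∀ σ : T, ∑ u, ∑ v, (x σ u v) • (lp.single ∞ σ (Matrix.single u v (1 : ℂ)) : Amb S R.lev) =
      lp.single ∞ σ (x σ) := by
    intro σ
    apply amb_ext
    intro τ
    rw [amb_sum]
    simp only [amb_sum, amb_smul]
    by_cases h : τ = σ
    · subst h
      simp only [lp.single_apply_self]
      conv_rhs => rw [Matrix.matrix_eq_sum_single (x τ)]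
      refine Finset.sum_congr rfl fun u _ => Finset.sum_congr rfl fun v _ => ?_
      rw [Matrix.smul_single, smul_eq_mul, mul_one]
    · simp only [lp.single_apply_ne (E := fun σ : T => Matrix (S.G (R.lev σ)) (S.G (R.lev σ)) ℂ) ∞ σ _ h]
      simp
  simp only [h0]
  apply amb_ext
  intro τ
  rw [amb_sum]
  by_cases h : x τ = 0
  · rw [h]
    refine (Finset.sum_eq_zero fun σ hσ => ?_).symm
    refine lp.single_apply_ne (E := fun σ : T => Matrix (S.G (R.lev σ)) (S.G (R.lev σ)) ℂ) ∞ σ _ ?_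
    rintro rfl
    have h2 : τ ∈ {σ | x σ ≠ 0} := (Set.Finite.mem_toFinset hx).mp hσ
    exact h2 h
  · rw [Finset.sum_eq_single τ]
    · exact (lp.single_apply_self (E := fun σ : T => Matrix (S.G (R.lev σ)) (S.G (R.lev σ)) ℂ) ∞ τ (x τ)).symm
    · intro σ _ hσ
      refine lp.single_apply_ne (E := fun σ : T => Matrix (S.G (R.lev σ)) (S.G (R.lev σ)) ℂ) ∞ σ _ ?_
      exact Ne.symm hσ
    · intro h2
      exfalso
      exact h2 ((Set.Finite.mem_toFinset hx).mpr h)

lemma gen_dense : Dense (Submodule.span ℂ (Set.range (gen S R t)) : Set (AlgT S R t)) := by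
  refine (dense_span' S R t).mono ?_
  rw [SetLike.coe_subset_coe, Submodule.span_le]
  intro a ha
  rcases ha with h | ⟨b, j, h⟩
  · have h1 : a = ∑ σ ∈ Set.Finite.toFinset h, ∑ u, ∑ v, (toAmb S R t a σ u v) • mu S R t σ u v := by
      apply toAmb_inj
      rw [map_sum]
      conv_lhs => rw [FS_eq_sum S R _ h]
      refine Finset.sum_congr rfl fun σ _ => ?_
      rw [map_sum]
      refine Finset.sum_congr rfl fun u _ => ?_
      rw [map_sum]
      refine Finset.sum_congr rfl fun v _ => ?_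
      rw [map_smul]
      rfl
    rw [h1]
    refine Submodule.sum_mem _ fun σ _ => Submodule.sum_mem _ fun u _ => Submodule.sum_mem _ fun v _ => ?_
    refine Submodule.smul_mem _ _ (Submodule.subset_span ?_)
    exact ⟨Sum.inl ⟨σ, u, v⟩, rfl⟩
  · refine Submodule.subset_span ⟨Sum.inr (b, j), ?_⟩
    apply toAmb_inj
    rw [h]
    rfl

lemma mk_sigma_le (κ : Cardinal.{u}) (hκ : ℵ₀ ≤ κ) (hT : #T ≤ κ) :
    #(Σ σ : T, S.G (R.lev σ) × S.G (R.lev σ)) ≤ κ := by
  have : Function.Injective (fun p : (Σ σ : T, S.G (R.lev σ) × S.G (R.lev σ)) =>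
      ((p.1, (Fintype.equivFin _ p.2).val) : T × ℕ)) := by
    rintro ⟨σ, p⟩ ⟨τ, q⟩ h
    simp only [Prod.mk.injEq] at h
    obtain ⟨rfl, h2⟩ := h
    have : p = q := by
      apply (Fintype.equivFin (S.G (R.lev σ) × S.G (R.lev σ))).injective
      exact Fin.ext h2
    rw [this]
  refine (Cardinal.mk_le_of_injective this).trans ?_
  rw [Cardinal.mk_prod]
  refine Cardinal.mul_le_of_le hκ ?_ ?_
  · rwa [Cardinal.lift_id']
  · rw [Cardinal.mk_nat, Cardinal.lift_aleph0]; exact hκ

lemma alg_dense_card (κ : Cardinal.{u}) (hκ : ℵ₀ ≤ κ) (hT : #T ≤ κ) (hΛ : #Λ ≤ κ) :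
    ∃ D : Set (AlgT S R t), Dense D ∧ #D ≤ κ := by
  refine exists_dense_card (gen S R t) (gen_dense S R t) κ hκ ?_
  rw [Cardinal.mk_sum, Cardinal.lift_id, Cardinal.lift_id]
  refine Cardinal.add_le_of_le hκ (mk_sigma_le S R κ hκ hT) ?_
  rw [Cardinal.mk_prod]
  refine Cardinal.mul_le_of_le hκ ?_ ?_
  · rwa [Cardinal.lift_id']
  · rw [Cardinal.mk_int, Cardinal.lift_aleph0]; exact hκ

end main

end Pool.Agent.Helper234.Nuc
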