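import Pool.Agent.Helper234.Nuc.M
import Pool.Agent.Helper234.BrownK

set_option autoImplicit false
open scoped ComplexOrder ENNReal
open scoped Matrix.Norms.L2Operator

namespace Pool.Agent.Helper234.Nuc

open Pool.Agent.Helper234.Brown (sumW sumW_map sumW_congr sumW_mono sumW_const sumW_add sumW_sum red ev
  pair_count_le red_reverse_append_iff ev_append ev_cons ev_nil ev_red ev_reverse_star Ball cperm
  cperm_mul_self card_fixed bperm)

universe u v

/-- positions `d` carry the colour `c` in `U` -/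
def Realizable (S : Sys) (U : Type u) [NonUnitalCStarAlgebra U] (d : ∀ n, S.G n → S.G n → U) (c : Bool) : Prop :=
  ∃ v : U, ‖v‖ ≤ 1 ∧ ∀ n, ∃ e : S.G n → S.G n → U, IsMUn e ∧ (∀ a b, ‖e a b - d n a b‖ ≤ 1/400) ∧
    (∀ a b, e a b * v = e a ((S.π c n)⁻¹ b)) ∧ (∀ a b, e a b * star v = e a (S.π c n b))

section realize

variable (S : Sys) {T Λ : Type u} (R : Tree T Λ) (t : Λ → Bool)

lemma mu_mul (σ : T) (p q r s : S.G (R.lev σ)) :
    mu S R t σ p q * mu S R t σ r s = if q = r then mu S R t σ p s else 0 := by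
  classical
  apply toAmb_inj
  apply amb_ext
  intro τ
  have h1 : toAmb S R t (mu S R t σ p q * mu S R t σ r s) τ =
      toAmb S R t (mu S R t σ p q) τ * toAmb S R t (mu S R t σ r s) τ := by rw [map_mul]; rfl
  rw [h1]
  by_cases h : τ = σ
  · subst h
    have h2 : ∀ a b, toAmb S R t (mu S R t τ a b) τ = Matrix.single a b (1 : ℂ) := fun a b =>
      lp.single_apply_self (E := fun σ : T => Matrix (S.G (R.lev σ)) (S.G (R.lev σ)) ℂ) ∞ τ _
    rw [h2, h2]
    split_ifs with hqr
    · subst hqr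
      rw [h2, Matrix.single_mul_single_same, mul_one]
    · rw [Matrix.single_mul_single_of_ne _ _ _ _ hqr, map_zero]; rfl
  · have h2 : ∀ a b, toAmb S R t (mu S R t σ a b) τ = 0 := fun a b =>
      lp.single_apply_ne (E := fun σ : T => Matrix (S.G (R.lev σ)) (S.G (R.lev σ)) ℂ) ∞ σ _ h
    rw [h2, zero_mul]
    split_ifs with hqr
    · rw [h2]
    · rw [map_zero]; rfl

lemma star_mu (σ : T) (p q : S.G (R.lev σ)) : star (mu S R t σ p q) = mu S R t σ q p := by
  classical
  apply toAmb_inj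
  apply amb_ext
  intro τ
  have h1 : toAmb S R t (star (mu S R t σ p q)) τ = star (toAmb S R t (mu S R t σ p q) τ) := by
    rw [map_star]; rfl
  rw [h1]
  by_cases h : τ = σ
  · subst h
    have h2 : ∀ a b, toAmb S R t (mu S R t τ a b) τ = Matrix.single a b (1 : ℂ) := fun a b =>
      lp.single_apply_self (E := fun σ : T => Matrix (S.G (R.lev σ)) (S.G (R.lev σ)) ℂ) ∞ τ _
    rw [h2, h2, Matrix.star_eq_conjTranspose, Matrix.conjTranspose_single, star_one]
  · have h2 : ∀ a b, toAmb S R t (mu S R t σ a b) τ = 0 := fun a b =>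
      lp.single_apply_ne (E := fun σ : T => Matrix (S.G (R.lev σ)) (S.G (R.lev σ)) ℂ) ∞ σ _ h
    rw [h2, h2, star_zero]

lemma mu_ne_zero (σ : T) (p q : S.G (R.lev σ)) : mu S R t σ p q ≠ 0 := by
  classical
  intro h
  have h1 : toAmb S R t (mu S R t σ p q) σ = Matrix.single p q (1 : ℂ) :=
    lp.single_apply_self (E := fun σ : T => Matrix (S.G (R.lev σ)) (S.G (R.lev σ)) ℂ) ∞ σ _
  rw [h, map_zero] at h1
  have h2 : (0 : Matrix (S.G (R.lev σ)) (S.G (R.lev σ)) ℂ) p q = 1 := by
    rw [show (0 : Matrix (S.G (R.lev σ)) (S.G (R.lev σ)) ℂ) = Matrix.single p q (1 : ℂ) from h1]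
    simp
  simp at h2

lemma mu_mul_pk (σ : T) (p q : S.G (R.lev σ)) (b : Λ) (h : R.node b (R.lev σ) = σ) (j : ℤ) :
    mu S R t σ p q * pk S R t b j = mu S R t σ p (((S.π (t b) (R.lev σ)) ^ j)⁻¹ q) := by
  classical
  apply toAmb_inj
  apply amb_ext
  intro τ
  have h1 : toAmb S R t (mu S R t σ p q * pk S R t b j) τ =
      toAmb S R t (mu S R t σ p q) τ * vt S R t 0 b j τ := by rw [map_mul]; rfl
  rw [h1]
  by_cases hτ : τ = σ
  · subst hτ
    have h2 : ∀ a b, toAmb S R t (mu S R t τ a b) τ = Matrix.single a b (1 : ℂ) := fun a b =>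
      lp.single_apply_self (E := fun σ : T => Matrix (S.G (R.lev σ)) (S.G (R.lev σ)) ℂ) ∞ τ _
    rw [h2, h2, vt_of S R t j ⟨Nat.zero_le _, h⟩]
    ext x y
    rw [Matrix.mul_apply]
    simp only [pm, Matrix.of_apply]
    rw [Finset.sum_eq_single q]
    · by_cases hx : p = x
      · subst hx
        rw [Matrix.single_apply_same, one_mul]
        by_cases hy : q = ((S.π (t b) (R.lev τ)) ^ j) y
        · rw [if_pos hy, hy, ← Equiv.Perm.mul_apply, inv_mul_cancel, Equiv.Perm.one_apply,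
            Matrix.single_apply_same]
        · rw [if_neg hy, Matrix.single_apply_of_ne]
          rintro ⟨-, h3⟩
          apply hy
          rw [← h3, ← Equiv.Perm.mul_apply, mul_inv_cancel, Equiv.Perm.one_apply]
      · rw [Matrix.single_apply_of_ne, zero_mul, Matrix.single_apply_of_ne]
        · rintro ⟨h3, -⟩; exact hx h3
        · rintro ⟨h3, -⟩; exact hx h3
    · intro z _ hz
      rw [Matrix.single_apply_of_ne, zero_mul]
      rintro ⟨-, h3⟩
      exact hz h3.symm
    · simp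
  · have h2 : ∀ a b, toAmb S R t (mu S R t σ a b) τ = 0 := fun a b =>
      lp.single_apply_ne (E := fun σ : T => Matrix (S.G (R.lev σ)) (S.G (R.lev σ)) ℂ) ∞ σ _ hτ
    rw [h2, h2, zero_mul]

lemma star_pk (b : Λ) (j : ℤ) : star (pk S R t b j) = pk S R t b (-j) := by
  apply toAmb_inj
  rw [map_star]
  exact star_vt S R t 0 b j

lemma norm_pk_le (b : Λ) (j : ℤ) : ‖pk S R t b j‖ ≤ 1 := by
  rw [← norm_toAmb]
  refine lp.norm_le_of_forall_le (by norm_num) (fun τ => ?_)
  show ‖vt S R t 0 b j τ‖ ≤ 1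
  by_cases h : 0 ≤ R.lev τ ∧ R.node b (R.lev τ) = τ
  · rw [vt_of S R t j h]; exact norm_pm_le _
  · rw [vt_not S R t j h]; simp

variable {U : Type v} [NonUnitalCStarAlgebra U]

lemma rel_node (f : AlgT S R t →⋆ₙₐ[ℂ] U) (hf : Function.Injective f) (σ : T) (b : Λ)
    (h : R.node b (R.lev σ) = σ) : IsMUn (fun p q => f (mu S R t σ p q)) ∧
    (∀ p q, f (mu S R t σ p q) * f (pk S R t b 1) = f (mu S R t σ p ((S.π (t b) (R.lev σ))⁻¹ q))) ∧
    (∀ p q, f (mu S R t σ p q) * star (f (pk S R t b 1)) = f (mu S R t σ p (S.π (t b) (R.lev σ) q))) := by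
  refine ⟨⟨?_, ?_, ?_⟩, ?_, ?_⟩
  · intro p q r s
    rw [← map_mul, mu_mul]
    split_ifs
    · rfl
    · rw [map_zero]
  · intro p q
    rw [← map_star, star_mu]
  · intro p h0
    exact mu_ne_zero S R t σ p p (hf (by rw [h0, map_zero]))
  · intro p q
    rw [← map_mul, mu_mul_pk S R t σ p q b h, zpow_one]
  · intro p q
    rw [← map_star, star_pk, ← map_mul, mu_mul_pk S R t σ p q b h, zpow_neg, zpow_one, inv_inv]

end realize

section concrete

variable {Λ α : Type u} (br : Λ → ℕ → α) (hbr : Function.Injective br)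

/-- the tree of finite sequences with a family of branches -/
def seqTree : Tree (Σ n : ℕ, (Fin n → α)) Λ where
  lev := Sigma.fst
  node b n := ⟨n, fun i => br b i⟩
  lev_node _ _ := rfl
  ad b b' hne := by
    have h1 : br b ≠ br b' := fun h => hne (hbr h)
    obtain ⟨k, hk⟩ := Function.ne_iff.mp h1
    refine ⟨k + 1, fun n hn h => hk ?_⟩
    have h2 := (Sigma.mk.inj_iff.mp h).2
    have h3 := congrFun (eq_of_heq h2) ⟨k, by omega⟩
    exact h3

variable {U : Type v} [NonUnitalCStarAlgebra U] (S : Sys) (t : Λ → Bool)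

lemma realize (f : AlgT S (seqTree br hbr) t →⋆ₙₐ[ℂ] U) (hf : Function.Injective f) (b : Λ)
    (d : ∀ n, S.G n → S.G n → U)
    (hd : ∀ n p q, ‖f (mu S (seqTree br hbr) t ((seqTree br hbr).node b n) p q) - d n p q‖ ≤ 1/400) :
    Realizable S U d (t b) := by
  refine ⟨f (pk S (seqTree br hbr) t b 1), ?_, fun n => ?_⟩
  · exact (NonUnitalStarAlgHom.norm_apply_le f _).trans (norm_pk_le _ _ _ _ _)
  · obtain ⟨h1, h2, h3⟩ := rel_node S (seqTree br hbr) t f hf ((seqTree br hbr).node b n) b rfl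
    exact ⟨fun p q => f (mu S (seqTree br hbr) t ((seqTree br hbr).node b n) p q), h1, hd n, h2, h3⟩

end concrete

end Pool.Agent.Helper234.Nuc
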