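import Pool.Agent.Helper234.Nuc.P

set_option autoImplicit false
open Cardinal Order

namespace Pool.Agent.Helper234.Nuc

universe u

/-- For uncountable cofinality, countable powers are determined below. -/
lemma pow_aleph0_le {κ : Cardinal.{u}} (hκ : ℵ₀ ≤ κ) (hcof : ℵ₀ < κ.ord.cof) (h : ∀ ν < κ, ν ^ ℵ₀ ≤ κ) :
    κ ^ ℵ₀ ≤ κ := by
  let A : Type u := κ.ord.ToType
  have hA : #A = κ := by simp [A]
  have hcofA : ℵ₀ < Order.cof A := by rw [Ordinal.cof_toType]; exact hcof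
  have hb : ∀ f : ℕ → A, ∃ a : A, ∀ n, f n < a := by
    intro f
    have h1 : ¬ IsCofinal (Set.range f) := by
      intro h2
      have h3 := Order.cof_le h2
      have h4 : #(Set.range f) ≤ ℵ₀ := (Set.countable_range f).le_aleph0
      exact absurd (hcofA.trans_le (h3.trans h4)) (lt_irrefl _)
    obtain ⟨a, ha⟩ := not_isCofinal_iff.mp h1
    exact ⟨a, fun n => ha _ ⟨n, rfl⟩⟩
  choose a ha using hb
  have hinj : Function.Injective (fun f : ℕ → A => (⟨a f, fun n => ⟨f n, ha f n⟩⟩ : Σ x : A, (ℕ → Set.Iio x))) := by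
    intro f g hfg
    simp only [Sigma.mk.injEq] at hfg
    obtain ⟨h1, h2⟩ := hfg
    funext n
    have h3 : ∀ (x y : A) (p : ℕ → Set.Iio x) (q : ℕ → Set.Iio y), x = y → HEq p q → ∀ n, (p n).1 = (q n).1 := by
      intro x y p q hxy hpq n
      subst hxy
      rw [eq_of_heq hpq]
    exact h3 _ _ _ _ h1 h2 n
  have h1 := Cardinal.mk_le_of_injective hinj
  have h2 : #(ℕ → A) = κ ^ ℵ₀ := by rw [← hA]; simp
  rw [h2, Cardinal.mk_sigma] at h1
  refine h1.trans ?_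
  have h3 : ∀ x : A, #(ℕ → Set.Iio x) ≤ κ := by
    intro x
    have h4 : #(ℕ → Set.Iio x) = #(Set.Iio x) ^ (ℵ₀ : Cardinal.{u}) := by simp
    rw [h4]
    exact h _ (Cardinal.mk_Iio_toType_ord_lt x)
  calc Cardinal.sum (fun x : A => #(ℕ → Set.Iio x)) ≤ Cardinal.sum (fun _ : A => κ) := Cardinal.sum_le_sum _ _ h3
    _ = κ * κ := by rw [Cardinal.sum_const', hA]
    _ = κ := Cardinal.mul_eq_self hκ

section main

variable {U : Type u} [NonUnitalCStarAlgebra U]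

lemma lt_pow_aleph0 {κ : Cardinal.{u}} (hκ : ℵ₀ ≤ κ)
    (hU : IsNuclear U) (hdens : ∃ D : Set U, Dense D ∧ #D ≤ κ)
    (huniv : ∀ (B : Type u) [NonUnitalCStarAlgebra B], IsNuclear B → (∃ D : Set B, Dense D ∧ #D ≤ κ) →
      ∃ f : B →⋆ₙₐ[ℂ] U, Function.Injective f) : κ < κ ^ ℵ₀ := by
  refine lt_of_le_of_ne (Cardinal.self_le_power κ Cardinal.one_lt_aleph0.le) (fun h => ?_)
  exact pow_ne hκ h.symm hU hdens huniv

lemma pow_eq_two_pow {κ μ : Cardinal.{u}} (hμ : ℵ₀ ≤ μ) (h : κ ≤ 2 ^ μ) (h2 : 2 ≤ κ) : κ ^ μ = 2 ^ μ := by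
  apply le_antisymm
  · calc κ ^ μ ≤ (2 ^ μ) ^ μ := Cardinal.power_le_power_right h
      _ = 2 ^ μ := by rw [← Cardinal.power_mul, Cardinal.mul_eq_self hμ]
  · exact Cardinal.power_le_power_right h2

/-- the case of uncountable cofinality -/
lemma cof_case {κ : Cardinal.{u}} (hκ : ℵ₀ ≤ κ)
    (hU : IsNuclear U) (hdens : ∃ D : Set U, Dense D ∧ #D ≤ κ)
    (huniv : ∀ (B : Type u) [NonUnitalCStarAlgebra B], IsNuclear B → (∃ D : Set B, Dense D ∧ #D ≤ κ) →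
      ∃ f : B →⋆ₙₐ[ℂ] U, Function.Injective f) (hcof : ℵ₀ < κ.ord.cof) :
    ∃ ν, ℵ₀ ≤ ν ∧ ν < κ ∧ κ < ν ^ ℵ₀ ∧ 2 ^ κ = κ ^ ν := by
  have h1 := lt_pow_aleph0 hκ hU hdens huniv
  have h2 : ∃ ν < κ, κ < ν ^ ℵ₀ := by
    by_contra hcon
    push Not at hcon
    exact absurd (h1.trans_le (pow_aleph0_le hκ hcof hcon)) (lt_irrefl _)
  obtain ⟨ν₀, hν₀, h3⟩ := h2
  have hκ' : ℵ₀ < κ := by
    refine hcof.trans_le ?_
    have := Ordinal.cof_le_card κ.ord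
    rwa [Cardinal.card_ord] at this
  refine ⟨max ν₀ ℵ₀, le_max_right _ _, max_lt hν₀ hκ', ?_, ?_⟩
  · exact h3.trans_le (Cardinal.power_le_power_right (le_max_left _ _))
  · apply le_antisymm
    · refine two_pow_le (le_max_right ν₀ ℵ₀) (max_lt hν₀ hκ').le le_rfl ?_ hU hdens huniv
      exact (h3.trans_le (Cardinal.power_le_power_right (le_max_left _ _))).le
    · have h4 : κ ^ κ = 2 ^ κ := Cardinal.power_self_eq hκ
      rw [← h4]
      have hκ0 : κ ≠ 0 := fun h => by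
        rw [h] at hκ
        exact absurd (Cardinal.aleph0_pos.trans_le hκ) (lt_irrefl _)
      exact Cardinal.power_le_power_left hκ0 (max_lt hν₀ hκ').le

/-- the case of successors -/
lemma succ_case {κ μ : Cardinal.{u}} (hμ : ℵ₀ ≤ μ) (hκμ : κ = Order.succ μ)
    (hU : IsNuclear U) (hdens : ∃ D : Set U, Dense D ∧ #D ≤ κ)
    (huniv : ∀ (B : Type u) [NonUnitalCStarAlgebra B], IsNuclear B → (∃ D : Set B, Dense D ∧ #D ≤ κ) →
      ∃ f : B →⋆ₙₐ[ℂ] U, Function.Injective f) : κ < μ ^ ℵ₀ ∧ (2 : Cardinal.{u}) ^ κ = 2 ^ μ := by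
  have hμκ : μ < κ := by rw [hκμ]; exact Order.lt_succ μ
  have hκ : ℵ₀ ≤ κ := hμ.trans hμκ.le
  have hcof : ℵ₀ < κ.ord.cof := by
    rw [hκμ, (Cardinal.isRegular_succ hμ).cof_ord]
    exact hμ.trans_lt (Order.lt_succ μ)
  obtain ⟨ν, h1, h2, h3, h4⟩ := cof_case hκ hU hdens huniv hcof
  have h5 : ν ≤ μ := by rw [hκμ] at h2; exact Order.lt_succ_iff.mp h2
  have h6 : κ ≤ 2 ^ μ := by rw [hκμ]; exact Order.succ_le_of_lt (Cardinal.cantor μ)
  have h7 : 2 ≤ κ := (Cardinal.natCast_lt_aleph0 (n := 2)).le.trans hκ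
  refine ⟨h3.trans_le (Cardinal.power_le_power_right h5), le_antisymm ?_ ?_⟩
  · rw [h4, ← pow_eq_two_pow hμ h6 h7]
    exact Cardinal.power_le_power_left (fun h => by rw [h] at h7; exact absurd h7 (by norm_num)) h5
  · exact Cardinal.power_le_power_left two_ne_zero hμκ.le

lemma ne_two_pow {κ : Cardinal.{u}} (hκ : ℵ₀ ≤ κ)
    (hU : IsNuclear U) (hdens : ∃ D : Set U, Dense D ∧ #D ≤ κ)
    (huniv : ∀ (B : Type u) [NonUnitalCStarAlgebra B], IsNuclear B → (∃ D : Set B, Dense D ∧ #D ≤ κ) →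
      ∃ f : B →⋆ₙₐ[ℂ] U, Function.Injective f) (θ : Cardinal.{u}) (hθ : ℵ₀ ≤ θ) : κ ≠ 2 ^ θ := by
  intro h
  refine pow_ne hκ ?_ hU hdens huniv
  rw [h, ← Cardinal.power_mul, Cardinal.mul_aleph0_eq hθ]

/-- under GCH only countable cofinality is possible -/
lemma gch_case {κ : Cardinal.{u}} (hκ : ℵ₀ ≤ κ)
    (hU : IsNuclear U) (hdens : ∃ D : Set U, Dense D ∧ #D ≤ κ)
    (huniv : ∀ (B : Type u) [NonUnitalCStarAlgebra B], IsNuclear B → (∃ D : Set B, Dense D ∧ #D ≤ κ) →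
      ∃ f : B →⋆ₙₐ[ℂ] U, Function.Injective f)
    (hgch : ∀ ν : Cardinal.{u}, ℵ₀ ≤ ν → 2 ^ ν = Order.succ ν) : κ.ord.cof = ℵ₀ := by
  by_contra hne
  have h1 : ℵ₀ ≤ κ.ord.cof := Ordinal.aleph0_le_cof.mpr (Cardinal.isSuccLimit_ord hκ)
  have hcof : ℵ₀ < κ.ord.cof := lt_of_le_of_ne h1 (Ne.symm hne)
  obtain ⟨ν, h2, h3, h4, -⟩ := cof_case hκ hU hdens huniv hcof
  have h5 : ν ^ ℵ₀ ≤ 2 ^ ν := by
    calc ν ^ ℵ₀ ≤ ν ^ ν := Cardinal.power_le_power_left (fun h => by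
            rw [h] at h2; exact absurd (Cardinal.aleph0_pos.trans_le h2) (lt_irrefl _)) h2
      _ = 2 ^ ν := Cardinal.power_self_eq h2
  rw [hgch ν h2] at h5
  exact absurd (h4.trans_le (h5.trans (Order.succ_le_of_lt h3))) (lt_irrefl _)

end main

end Pool.Agent.Helper234.Nuc
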