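import Pool.Agent.Helper234.Nuc.Defs

set_option autoImplicit false
open Cardinal

namespace Pool.Agent.Helper234.Nuc

universe u

/-- `U` is a universal nuclear C*-algebra of density character `κ`: it is nuclear, its density
character is `κ`, and every nuclear C*-algebra of density character at most `κ` embeds into it by an
injective *-homomorphism. -/
def IsUniversalNuclear (κ : Cardinal.{u}) (U : Type u) [NonUnitalCStarAlgebra U] : Prop :=
  IsNuclear U ∧
  (∃ D : Set U, Dense D ∧ #D ≤ κ) ∧
  (∀ D : Set U, Dense D → κ ≤ #D) ∧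
  ∀ (B : Type u) [NonUnitalCStarAlgebra B], IsNuclear B → (∃ D : Set B, Dense D ∧ #D ≤ κ) →
    ∃ f : B →⋆ₙₐ[ℂ] U, Function.Injective f

/-- There is a universal nuclear C*-algebra of density character `κ`. -/
def HasUniversalNuclear (κ : Cardinal.{u}) : Prop :=
  ∃ (U : Type u) (_ : NonUnitalCStarAlgebra U), IsUniversalNuclear κ U

end Pool.Agent.Helper234.Nuc
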